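import Pool.Agent.Lib.MP_bb37eb_nt.Core.HasClass
import Pool.Agent.Lib.MP_bb37eb_nt.Core.Alpha

/-!
# L2, Classes: the class of `(-1,-1)`
-/

set_option autoImplicit false

open Module MulOpposite

namespace BB37

open Quaternion

/-- the matrix `I` -/
private def classesI {L : Type} [Field L] (r : L) : Matrix (Fin 2) (Fin 2) L := !![r, 0; 0, -r]

/-- the matrix `J` -/
private def classesJ (L : Type) [Field L] : Matrix (Fin 2) (Fin 2) L := !![0, -1; 1, 0]

private theorem classesJ_sq {L : Type} [Field L] : classesJ L * classesJ L = -1 := by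
  ext i j
  fin_cases i <;> fin_cases j <;> simp [classesJ, Matrix.mul_apply, Fin.sum_univ_two]

private theorem classesJ_isUnit {L : Type} [Field L] : IsUnit (classesJ L) := by
  refine ⟨⟨classesJ L, -classesJ L, ?_, ?_⟩, rfl⟩
  · rw [mul_neg, classesJ_sq, neg_neg]
  · rw [neg_mul, classesJ_sq, neg_neg]

/-- the basis of the quaternion algebra -/
private def classesBasis {K L : Type} [Field K] [Field L] [Algebra K L] (r : L) (hr : r ^ 2 = -1) :
    QuaternionAlgebra.Basis (R := K) (Matrix (Fin 2) (Fin 2) L) (-1) 0 (-1) where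
  i := classesI r
  j := classesJ L
  k := classesI r * classesJ L
  i_mul_i := by
    have hr' : r * r = -1 := by rw [← sq, hr]
    ext i j
    fin_cases i <;> fin_cases j <;>
      simp [classesI, Matrix.mul_apply, Fin.sum_univ_two, hr']
  j_mul_j := by
    rw [classesJ_sq, neg_smul, one_smul]
  i_mul_j := rfl
  j_mul_i := by
    ext i j
    fin_cases i <;> fin_cases j <;>
      simp [classesI, classesJ, Matrix.mul_apply, Fin.sum_univ_two]

private theorem classes_comm {K : Type} [Field K] (g : GK K) (r : Kb K) (hr : r ^ 2 = -1)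
    (hg : g r = -r) (a : ℍ[K,-1,0,-1]) :
    classesJ (Kb K) * ((classesBasis (K := K) r hr).liftHom a).map g =
      (classesBasis (K := K) r hr).liftHom a * classesJ (Kb K) := by
  have h1 : (classesBasis (K := K) r hr).liftHom a =
      !![algebraMap K (Kb K) a.re + algebraMap K (Kb K) a.imI * r,
        -algebraMap K (Kb K) a.imJ - algebraMap K (Kb K) a.imK * r;
        algebraMap K (Kb K) a.imJ - algebraMap K (Kb K) a.imK * r,
        algebraMap K (Kb K) a.re - algebraMap K (Kb K) a.imI * r] := by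
    rw [QuaternionAlgebra.Basis.liftHom_apply, QuaternionAlgebra.Basis.lift]
    ext i j
    fin_cases i <;> fin_cases j <;>
      simp [classesBasis, classesI, classesJ, Matrix.mul_apply, Fin.sum_univ_two,
        Matrix.algebraMap_matrix_apply, Algebra.smul_def] <;> ring
  rw [h1]
  ext i j
  fin_cases i <;> fin_cases j <;>
    simp [classesJ, Matrix.mul_apply, Fin.sum_univ_two, hg] <;> ring

/-- PROOF. Choose `r` with `r ^ 2 = -1` in `Kb K`. `J = !![0, -1; 1, 0]`, `I = !![r, 0; 0, -r]`,
`ρ = QuaternionAlgebra.lift` of the basis `I, J, I J`; `Φ g = 1` if `g r = r`, `Φ g = J` if `g r = -r`.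
`Φ` is smooth (`M = K(r)`). `J * J = -1`, `J` commutes with `J` and is fixed by `g`, `J * (-I) = I * J`.
Every root of `X^2 + 1` is `r` or `-r`, so `∃ s, s ^ 2 = -1 ∧ g s ≠ s` iff `g r ≠ r`. The cochain
`qfun (-1) (-1)` is smooth, and a cocycle because `Φ g * (Φ h).map g = c (g,h) • Φ (g * h)` (or by cases).
The dimension of the quaternion algebra is `4` (`QuaternionAlgebra.finrank_eq_four`). -/
theorem hasClass_H {K : Type} [Field K] [CharZero K] :
    ∃ c : Z2 K, c.1 = qfun (-1) (-1) ∧ HasClass K ℍ[K,-1,0,-1] c := by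
  classical
  haveI : CharZero (Kb K) := charZero_Kb K
  obtain ⟨r, hr⟩ : ∃ r : Kb K, r ^ 2 = -1 := IsAlgClosed.exists_pow_nat_eq (-1) (by norm_num)
  have hr0 : r ≠ 0 := by
    rintro rfl
    rw [zero_pow two_ne_zero] at hr
    exact one_ne_zero (neg_eq_zero.1 hr.symm)
  have hrn : r ≠ -r := fun h => hr0 (self_eq_neg.1 h)
  have hroot : ∀ s : Kb K, s ^ 2 = -1 → s = r ∨ s = -r := fun s hs =>
    sq_eq_sq_iff_eq_or_eq_neg.1 (hs.trans hr.symm)
  have hg : ∀ g : GK K, g r = r ∨ g r = -r := fun g => hroot _ (by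
    rw [← map_pow, hr, map_neg, map_one])
  have hP : ∀ g : GK K, (∃ s : Kb K, s ^ 2 = algebraMap K (Kb K) (-1) ∧ g s ≠ s) ↔ g r = -r := by
    intro g
    rw [map_neg, map_one]
    constructor
    · rintro ⟨s, hs, hgs⟩
      rcases hg g with h | h
      · exfalso
        apply hgs
        rcases hroot s hs with rfl | rfl
        · exact h
        · rw [map_neg, h]
      · exact h
    · intro h
      refine ⟨r, hr, ?_⟩
      rw [h]
      exact hrn.symm
  have hc1 : ∀ g h : GK K, g r = -r → h r = -r → qfun (-1) (-1) (g, h) = (-1 : (Kb K)ˣ) := by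
    intro g h h1 h2
    exact if_pos ⟨(hP g).2 h1, (hP h).2 h2⟩
  have hc2 : ∀ g h : GK K, g r = r → qfun (-1) (-1) (g, h) = (1 : (Kb K)ˣ) := by
    intro g h h1
    refine if_neg ?_
    rintro ⟨h2, -⟩
    have h3 := (hP g).1 h2
    rw [h1] at h3
    exact hrn h3
  have hc3 : ∀ g h : GK K, h r = r → qfun (-1) (-1) (g, h) = (1 : (Kb K)ˣ) := by
    intro g h h1
    refine if_neg ?_
    rintro ⟨-, h2⟩
    have h3 := (hP h).1 h2
    rw [h1] at h3
    exact hrn h3
  have hmul : ∀ g h : GK K, (g * h) r = g (h r) := fun g h => AlgEquiv.mul_apply g h r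
  have hneg : ∀ g : GK K, g • (-1 : (Kb K)ˣ) = -1 := by
    intro g
    apply Units.ext
    rw [AlgEquiv.smul_units_def]
    simp
  obtain ⟨M, hM, hrM⟩ := exists_finite_sub (K := K) {r} (Set.finite_singleton r)
  have hrM' : r ∈ M := hrM rfl
  have hval : ∀ g g' : GK K, Agree K M g g' → g r = g' r := fun g g' h => h r hrM'
  have hZ : qfun (-1) (-1) ∈ Z2 K := by
    refine ⟨⟨M, hM, ?_⟩, ?_⟩
    · intro g g' h h' h1 h2
      have e1 := hval g g' h1
      have e2 := hval h h' h2
      rcases hg g' with k1 | k1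
      · rw [hc2 g h (e1.trans k1), hc2 g' h' k1]
      · rcases hg h' with k2 | k2
        · rw [hc3 g h (e2.trans k2), hc3 g' h' k2]
        · rw [hc1 g h (e1.trans k1) (e2.trans k2), hc1 g' h' k1 k2]
    · intro g h j
      rcases hg g with k1 | k1 <;> rcases hg h with k2 | k2 <;> rcases hg j with k3 | k3
      · have e1 : (g * h) r = r := by rw [hmul, k2, k1]
        have e2 : (h * j) r = r := by rw [hmul, k3, k2]
        rw [hc2 _ _ e1, hc2 _ _ k1, hc2 _ _ k2, hc2 _ _ k1, smul_one]
      · have e1 : (g * h) r = r := by rw [hmul, k2, k1]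
        rw [hc2 _ _ e1, hc2 _ _ k1, hc2 _ _ k2, hc2 _ _ k1, smul_one]
      · rw [hc3 _ _ k3, hc2 _ _ k1, hc3 _ _ k3, hc2 _ _ k1, smul_one]
      · have e1 : (g * h) r = -r := by rw [hmul, k2, map_neg, k1]
        rw [hc1 _ _ e1 k3, hc2 _ _ k1, hc1 _ _ k2 k3, hc2 _ _ k1, hneg]
      · have e2 : (h * j) r = r := by rw [hmul, k3, k2]
        rw [hc3 _ _ k3, hc3 _ _ k2, hc3 _ _ k3, hc3 _ _ e2, smul_one]
      · have e1 : (g * h) r = -r := by rw [hmul, k2, k1]
        have e2 : (h * j) r = -r := by rw [hmul, k3, map_neg, k2]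
        rw [hc1 _ _ e1 k3, hc3 _ _ k2, hc2 _ _ k2, hc1 _ _ k1 e2, smul_one, mul_comm]
      · have e2 : (h * j) r = -r := by rw [hmul, k3, k2]
        rw [hc3 _ _ k3, hc1 _ _ k1 k2, hc3 _ _ k3, hc1 _ _ k1 e2, smul_one]
      · have e1 : (g * h) r = r := by rw [hmul, k2, map_neg, k1, neg_neg]
        have e2 : (h * j) r = r := by rw [hmul, k3, map_neg, k2, neg_neg]
        rw [hc2 _ _ e1, hc1 _ _ k1 k2, hc1 _ _ k2 k3, hc3 _ _ e2, hneg, mul_comm]
  refine ⟨⟨_, hZ⟩, rfl, 2, (classesBasis (K := K) r hr).liftHom,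
    fun g => if g r = r then 1 else classesJ (Kb K), by norm_num, ?_, ?_, ?_, ?_, ?_⟩
  · rw [QuaternionAlgebra.finrank_eq_four]
    norm_num
  · refine ⟨M, hM, fun g g' h => ?_⟩
    simp only [hval g g' h]
  · intro g
    dsimp only
    split_ifs
    · exact isUnit_one
    · exact classesJ_isUnit
  · intro g h
    have hone : (1 : Matrix (Fin 2) (Fin 2) (Kb K)).map g = 1 := by
      rw [Matrix.map_one] <;> simp
    have hJ : (classesJ (Kb K)).map g = classesJ (Kb K) := by
      ext i j
      fin_cases i <;> fin_cases j <;> simp [classesJ]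
    have hrn' : ∀ x : Kb K, x = -r → ¬ x = r := by
      rintro _ rfl h
      exact hrn h.symm
    dsimp only
    rcases hg g with k1 | k1 <;> rcases hg h with k2 | k2
    · have e1 : (g * h) r = r := by rw [hmul, k2, k1]
      rw [if_pos k1, if_pos k2, if_pos e1, hone, hc2 _ _ k1, Units.val_one, one_smul, one_mul]
    · have e1 : (g * h) r = -r := by rw [hmul, k2, map_neg, k1]
      rw [if_pos k1, if_neg (hrn' _ k2), if_neg (hrn' _ e1), hJ, hc2 _ _ k1, Units.val_one,
        one_smul, one_mul]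
    · have e1 : (g * h) r = -r := by rw [hmul, k2, k1]
      rw [if_neg (hrn' _ k1), if_pos k2, if_neg (hrn' _ e1), hone, hc3 _ _ k2, Units.val_one,
        one_smul, mul_one]
    · have e1 : (g * h) r = r := by rw [hmul, k2, map_neg, k1, neg_neg]
      rw [if_neg (hrn' _ k1), if_neg (hrn' _ k2), if_pos e1, hJ, hc1 _ _ k1 k2, classesJ_sq,
        Units.val_neg, Units.val_one, neg_smul, one_smul]
  · intro g a
    dsimp only
    split_ifs with hgr
    · rw [one_mul, mul_one]
      ext i j
      rw [Matrix.map_apply]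
      have h1 : ∀ a : ℍ[K,-1,0,-1], (classesBasis (K := K) r hr).liftHom a =
          algebraMap K _ a.re + a.imI • classesI r + a.imJ • classesJ (Kb K) +
            a.imK • (classesI r * classesJ (Kb K)) := fun a => rfl
      rw [h1]
      fin_cases i <;> fin_cases j <;>
        simp [classesI, classesJ, Matrix.mul_apply, Fin.sum_univ_two,
          Matrix.algebraMap_matrix_apply, Algebra.smul_def, hgr]
    · exact classes_comm g r hr ((hg g).resolve_left hgr) a

end BB37
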