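import Mathlib

/-!
# L2, Comm: commutative subfields of a central division algebra
-/

set_option autoImplicit false

open Module

namespace Pool.Agent.Lib.MP_bb37eb_nt.L2

section

variable {K : Type*} [Field K] {D : Type*} [DivisionRing D] [Algebra K D] [Algebra.IsCentral K D]

/-- Dedekind's argument: if `∑ d i * x * f i = 0` for all `x` and the `f i` are independent over the
centre, then all `d i` are zero. -/
theorem sum_mul_mul_eq_zero_aux [DecidableEq D] {ι : Type*} [Fintype ι] [DecidableEq ι] {f : ι → D}
    (hf : LinearIndependent K f) : ∀ (n : ℕ) (d : ι → D),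
      (Finset.univ.filter fun i => d i ≠ 0).card ≤ n → (∀ x : D, ∑ i, d i * x * f i = 0) →
      ∀ i, d i = 0 := by
  intro n
  induction n with
  | zero =>
    intro d hd _ i
    by_contra hi
    have h1 : i ∈ Finset.univ.filter fun i => d i ≠ 0 := by simp [hi]
    exact absurd (Finset.card_pos.2 ⟨i, h1⟩) (by omega)
  | succ n ih =>
    intro d hd h
    by_contra hcon
    push Not at hcon
    obtain ⟨i₀, hi₀⟩ := hcon
    have h' : ∀ x : D, ∑ i, ((d i₀)⁻¹ * d i) * x * f i = 0 := by
      intro x
      have : ∑ i, ((d i₀)⁻¹ * d i) * x * f i = (d i₀)⁻¹ * ∑ i, d i * x * f i := by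
        rw [Finset.mul_sum]
        refine Finset.sum_congr rfl fun i _ => ?_
        simp only [mul_assoc]
      rw [this, h x, mul_zero]
    have hcomm : ∀ y : D, ∀ i, ((d i₀)⁻¹ * d i) * y - y * ((d i₀)⁻¹ * d i) = 0 := by
      intro y
      refine ih (fun i => ((d i₀)⁻¹ * d i) * y - y * ((d i₀)⁻¹ * d i)) ?_ ?_
      · have hsub : (Finset.univ.filter fun i =>
            ((d i₀)⁻¹ * d i) * y - y * ((d i₀)⁻¹ * d i) ≠ 0) ⊆
            (Finset.univ.filter fun i => d i ≠ 0).erase i₀ := by
          intro i hi
          rw [Finset.mem_filter] at hi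
          rw [Finset.mem_erase, Finset.mem_filter]
          refine ⟨?_, Finset.mem_univ _, ?_⟩
          · rintro rfl
            apply hi.2
            rw [inv_mul_cancel₀ hi₀, one_mul, mul_one, sub_self]
          · intro h0
            apply hi.2
            rw [h0, mul_zero, zero_mul, mul_zero, sub_self]
        have h1 := Finset.card_le_card hsub
        have h2 : i₀ ∈ Finset.univ.filter fun i => d i ≠ 0 := by simp [hi₀]
        rw [Finset.card_erase_of_mem h2] at h1
        have h3 : 0 < (Finset.univ.filter fun i => d i ≠ 0).card := Finset.card_pos.2 ⟨i₀, h2⟩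
        omega
      · intro x
        have h1 := h' (y * x)
        have h2 := h' x
        calc ∑ i, (((d i₀)⁻¹ * d i) * y - y * ((d i₀)⁻¹ * d i)) * x * f i
            = ∑ i, ((d i₀)⁻¹ * d i) * (y * x) * f i -
              y * ∑ i, ((d i₀)⁻¹ * d i) * x * f i := by
                rw [Finset.mul_sum, ← Finset.sum_sub_distrib]
                refine Finset.sum_congr rfl fun i _ => ?_
                simp only [sub_mul, mul_assoc]
          _ = 0 := by rw [h1, h2, mul_zero, sub_zero]
    have hcen : ∀ i, ∃ c : K, algebraMap K D c = (d i₀)⁻¹ * d i := by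
      intro i
      have hmem : (d i₀)⁻¹ * d i ∈ Subalgebra.center K D := by
        rw [Subalgebra.mem_center_iff]
        intro y
        exact (sub_eq_zero.1 (hcomm y i)).symm
      rw [Algebra.IsCentral.center_eq_bot] at hmem
      exact Algebra.mem_bot.1 hmem
    choose c hc using hcen
    have hsum : ∑ i, c i • f i = 0 := by
      have h1 := h' 1
      rw [← h1]
      refine Finset.sum_congr rfl fun i _ => ?_
      rw [mul_one, ← hc i, Algebra.smul_def]
    have hc0 := Fintype.linearIndependent_iff.1 hf c hsum i₀
    have h1 := hc i₀
    rw [hc0, map_zero, inv_mul_cancel₀ hi₀] at h1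
    exact zero_ne_one h1

theorem sum_mul_mul_eq_zero {ι : Type*} [Fintype ι] {f : ι → D}
    (hf : LinearIndependent K f) {d : ι → D} (h : ∀ x : D, ∑ i, d i * x * f i = 0) (i : ι) :
    d i = 0 := by
  classical
  exact sum_mul_mul_eq_zero_aux hf _ d le_rfl h i

/-- a commutative subfield `F` of a central division algebra `D` satisfies `[F:K]² ≤ [D:K]` -/
theorem finrank_sq_le [FiniteDimensional K D] {F : Type*} [Field F] [Algebra K F]
    [FiniteDimensional K F] (j : F →ₐ[K] D) : finrank K F * finrank K F ≤ finrank K D := by
  let _ : Module F D :=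
    { smul := fun a x => x * j a
      one_smul := fun x => by change x * j 1 = x; rw [map_one, mul_one]
      mul_smul := fun a b x => by
        change x * j (a * b) = x * j b * j a
        rw [mul_comm a b, map_mul, mul_assoc]
      smul_zero := fun a => by change 0 * j a = 0; rw [zero_mul]
      smul_add := fun a x y => by change (x + y) * j a = x * j a + y * j a; rw [add_mul]
      add_smul := fun a b x => by change x * j (a + b) = x * j a + x * j b; rw [map_add, mul_add]
      zero_smul := fun x => by change x * j 0 = 0; rw [map_zero, mul_zero] }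
  have hsm : ∀ (a : F) (x : D), a • x = x * j a := fun a x => rfl
  have : IsScalarTower K F D := ⟨fun a b x => by
    rw [hsm, hsm, map_smul, mul_smul_comm]⟩
  have : FiniteDimensional F D := FiniteDimensional.right K F D
  have hmul := finrank_mul_finrank K F D
  let b := finBasis K F
  let e := finBasis F D
  have hj : LinearIndependent K fun i => j (b i) :=
    b.linearIndependent.map' j.toLinearMap (LinearMap.ker_eq_bot.2 j.toRingHom.injective)
  let Ψ : (Fin (finrank K F) → D) →ₗ[K] (Fin (finrank F D) → D) :=
    { toFun := fun d k => ∑ i, d i * e k * j (b i)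
      map_add' := fun d d' => by
        funext k
        simp only [Pi.add_apply, add_mul, Finset.sum_add_distrib]
      map_smul' := fun c d => by
        funext k
        simp only [Pi.smul_apply, smul_mul_assoc, RingHom.id_apply, Finset.smul_sum] }
  have hΨ : Function.Injective Ψ := by
    rw [← LinearMap.ker_eq_bot, LinearMap.ker_eq_bot']
    intro d hd
    let φ : D →ₗ[F] D :=
      { toFun := fun x => ∑ i, d i * x * j (b i)
        map_add' := fun x y => by
          simp only [mul_add, add_mul, Finset.sum_add_distrib]
        map_smul' := fun a x => by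
          simp only [hsm, RingHom.id_apply, Finset.sum_mul]
          refine Finset.sum_congr rfl fun i _ => ?_
          rw [mul_assoc (d i * x), ← map_mul, mul_comm (b i) a, map_mul]
          simp only [mul_assoc] }
    have hφ : φ = 0 := by
      refine e.ext fun k => ?_
      exact congrFun hd k
    funext i
    refine sum_mul_mul_eq_zero hj (d := d) (fun x => ?_) i
    exact LinearMap.congr_fun hφ x
  have h1 := LinearMap.finrank_le_finrank_of_injective hΨ
  rw [finrank_pi_fintype, finrank_pi_fintype] at h1
  simp only [Finset.sum_const, Finset.card_univ, Fintype.card_fin, smul_eq_mul] at h1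
  have hpos : 0 < finrank K D := finrank_pos
  have h2 : finrank K F ≤ finrank F D := Nat.le_of_mul_le_mul_right h1 hpos
  calc finrank K F * finrank K F ≤ finrank K F * finrank F D := Nat.mul_le_mul_left _ h2
    _ = finrank K D := hmul

end

end Pool.Agent.Lib.MP_bb37eb_nt.L2
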