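import Pool.Agent.Lib.MP_bb37eb_nt.L2.Comm

/-!
# L2, Comm2: independent elements of a commutative subfield
-/

set_option autoImplicit false

open Module

namespace Pool.Agent.Lib.MP_bb37eb_nt.L2

variable {K : Type*} [Field K] {D : Type*} [DivisionRing D] [Algebra K D] [Algebra.IsCentral K D]
  [FiniteDimensional K D]

/-- PROOF. `A = Algebra.adjoin K S` is commutative (`Algebra.adjoinCommRingOfComm`), a domain
(inside `D`), finite-dimensional, so a field (`fieldOfFiniteDimensional`); apply `finrank_sq_le` to
`A.val`, and `Fintype.card ι ≤ finrank K A` (the family `v` lies in `A` and is independent there).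
Care: the field structure on `A` must have the ring structure of the subalgebra underneath. -/
theorem card_sq_le {ι : Type*} [Fintype ι] (S : Set D) (hS : ∀ a ∈ S, ∀ b ∈ S, a * b = b * a)
    (v : ι → D) (hv : ∀ i, v i ∈ Algebra.adjoin K S) (hli : LinearIndependent K v) :
    Fintype.card ι * Fintype.card ι ≤ finrank K D := by
  let A : Subalgebra K D := Algebra.adjoin K S
  let cA : CommRing A := Algebra.adjoinCommRingOfComm K hS
  have hdom : IsDomain A := inferInstance
  have hfin : FiniteDimensional K A := inferInstance
  let F : Field A := fieldOfFiniteDimensional K A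
  let w : ι → A := fun i => ⟨v i, hv i⟩
  have hw : LinearIndependent K w := by
    refine LinearIndependent.of_comp A.val.toLinearMap ?_
    exact hli
  have h1 : Fintype.card ι ≤ finrank K A := hw.fintype_card_le_finrank
  have h2 : finrank K A * finrank K A ≤ finrank K D := finrank_sq_le (F := A) A.val
  exact (Nat.mul_le_mul h1 h1).trans h2

end Pool.Agent.Lib.MP_bb37eb_nt.L2
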