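import Pool.Agent.Lib.MP_bb37eb_nt.L2.Defs

/-!
# L2, Conj: correcting an element by a unit so that it conjugates `ζ` exactly
-/

set_option autoImplicit false

open Module

namespace Pool.Agent.Lib.MP_bb37eb_nt.L2

variable {D : Type} [DivisionRing D] [Algebra ℚ_[2] D] [FiniteDimensional ℚ_[2] D]

private theorem nu_eq_one_of_pow_eq_one {α : D} {n : ℕ} (hn : n ≠ 0) (hα : α ^ n = 1) :
    nu ℚ_[2] α = 1 := by
  have h : nu ℚ_[2] α ^ n = 1 := by rw [← nu_pow, hα, nu_one]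
  exact (pow_eq_one_iff_of_nonneg (nu_nonneg ℚ_[2] _) hn).1 h

omit [Algebra ℚ_[2] D] [FiniteDimensional ℚ_[2] D] in
private theorem telescope {α β : D} (hα0 : α ≠ 0) (n : ℕ) :
    α * (∑ j ∈ Finset.range n, (α⁻¹) ^ j * β ^ j) - (∑ j ∈ Finset.range n, (α⁻¹) ^ j * β ^ j) * β =
      α - α * ((α⁻¹) ^ n * β ^ n) := by
  induction n with
  | zero => simp
  | succ n ih =>
    rw [Finset.sum_range_succ, mul_add, add_mul]
    have e1 : (α⁻¹) ^ n * β ^ n * β = α * ((α⁻¹) ^ (n + 1) * β ^ (n + 1)) := by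
      rw [pow_succ' (α⁻¹) n, pow_succ β n, mul_assoc α⁻¹, mul_inv_cancel_left₀ hα0, mul_assoc]
    rw [e1]
    have e2 : ∀ a b c d : D, a + b - (c + d) = a - c + (b - d) := fun a b c d => by abel
    rw [e2, ih]
    abel

private theorem nu_sum_sub_lt {g : ℕ → D} (hg : ∀ j, nu ℚ_[2] (g j - 1) < 1) (n : ℕ) :
    nu ℚ_[2] ((∑ j ∈ Finset.range n, g j) - (n : D)) < 1 := by
  induction n with
  | zero =>
    rw [Finset.sum_range_zero, Nat.cast_zero, sub_zero, nu_zero]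
    exact one_pos
  | succ n ih =>
    have e : (∑ j ∈ Finset.range (n + 1), g j) - ((n + 1 : ℕ) : D) =
        ((∑ j ∈ Finset.range n, g j) - (n : D)) + (g n - 1) := by
      rw [Finset.sum_range_succ, Nat.cast_succ]
      abel
    rw [e]
    exact (nu_add_le ℚ_[2] _ _).trans_lt (max_lt ih (hg n))

/-- PROOF. `u = ∑ j ∈ range n, (α⁻¹) ^ j * β ^ j`. `α * u = α + ∑_(j=1)^(n-1) (α⁻¹)^(j-1) * β^j`,
`u * β = ∑_(j=1)^n (α⁻¹)^(j-1) * β^j`, the difference is `(α⁻¹)^(n-1) * β^n - α = 0`. Every term is congruent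
to `1` (`nu_pow_sub_pow_lt`: `β^j` is congruent to `α^j`), so `nu (u - n) < 1`, and `nu (n : D) = 1` by
`nu_odd`. -/
theorem exists_intertwiner {α β : D} {n : ℕ} (hn : Odd n) (hα : α ^ n = 1) (hβ : β ^ n = 1)
    (h : nu ℚ_[2] (α - β) < 1) : ∃ u : D, nu ℚ_[2] u = 1 ∧ u * β = α * u := by
  have hn0 : n ≠ 0 := by
    rintro rfl
    exact absurd hn (by decide)
  have hνα : nu ℚ_[2] α = 1 := nu_eq_one_of_pow_eq_one hn0 hα
  have hνβ : nu ℚ_[2] β = 1 := nu_eq_one_of_pow_eq_one hn0 hβ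
  have hα0 : α ≠ 0 := by
    rintro rfl
    rw [nu_zero] at hνα
    exact zero_ne_one hνα
  have hinv : nu ℚ_[2] α⁻¹ = 1 := by
    refine nu_eq_one_of_pow_eq_one hn0 ?_
    rw [inv_pow, hα, inv_one]
  refine ⟨∑ j ∈ Finset.range n, (α⁻¹) ^ j * β ^ j, ?_, ?_⟩
  · refine nu_eq_one_of_sub_lt (nu_sum_sub_lt (fun j => ?_) n) (nu_odd hn)
    have e : (α⁻¹) ^ j * β ^ j - 1 = (α⁻¹) ^ j * β ^ j - (α⁻¹) ^ j * α ^ j := by
      rw [inv_pow, inv_mul_cancel₀ (pow_ne_zero j hα0)]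
    rw [e]
    refine nu_mul_sub_mul_lt ?_ ?_ ?_ ?_
    · rw [nu_pow, hinv, one_pow]
    · rw [nu_pow, hνα, one_pow]
    · rw [sub_self, nu_zero]
      exact one_pos
    · refine nu_pow_sub_pow_lt hνβ.le hνα.le ?_ j
      rw [nu_sub_comm]
      exact h
  · have ht := telescope (β := β) hα0 n
    rw [inv_pow, hα, inv_one, one_mul, hβ, mul_one, sub_self] at ht
    exact (sub_eq_zero.1 ht).symm

/-- PROOF. Apply `exists_intertwiner` with `α = ζ ^ a`, `β = x * ζ * x⁻¹`, `n = 2 ^ f - 1` (odd because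
`0 < f`): `u * x * ζ = u * β * x = ζ ^ a * u * x`. -/
theorem exists_unit_conj (Z : ZetaData D) {x : D} (hx : x ≠ 0) {a : ℕ}
    (h : nu ℚ_[2] (x * Z.ζ * x⁻¹ - Z.ζ ^ a) < 1) :
    ∃ u : D, nu ℚ_[2] u = 1 ∧ (u * x) * Z.ζ = Z.ζ ^ a * (u * x) := by
  have hn : Odd (2 ^ Z.f - 1) := by
    obtain ⟨g, hg⟩ : ∃ g, Z.f = g + 1 := ⟨Z.f - 1, by have := Z.f_pos; omega⟩
    rw [hg, pow_succ]
    have := Nat.one_le_two_pow (n := g)
    exact ⟨2 ^ g - 1, by omega⟩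
  have hα : (Z.ζ ^ a) ^ (2 ^ Z.f - 1) = 1 := by
    rw [← pow_mul, mul_comm, pow_mul, Z.pow_eq, one_pow]
  have hβ' : ∀ k : ℕ, (x * Z.ζ * x⁻¹) ^ k = x * Z.ζ ^ k * x⁻¹ := by
    intro k
    induction k with
    | zero => rw [pow_zero, pow_zero, mul_one, mul_inv_cancel₀ hx]
    | succ k ih =>
      rw [pow_succ, ih, pow_succ]
      calc x * Z.ζ ^ k * x⁻¹ * (x * Z.ζ * x⁻¹)
          = x * Z.ζ ^ k * (x⁻¹ * x) * Z.ζ * x⁻¹ := by simp only [mul_assoc]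
        _ = x * (Z.ζ ^ k * Z.ζ) * x⁻¹ := by rw [inv_mul_cancel₀ hx, mul_one, mul_assoc x]
  have hβ : (x * Z.ζ * x⁻¹) ^ (2 ^ Z.f - 1) = 1 := by
    rw [hβ', Z.pow_eq, mul_one, mul_inv_cancel₀ hx]
  obtain ⟨u, hu, huc⟩ := exists_intertwiner hn hα hβ (by rw [nu_sub_comm]; exact h)
  refine ⟨u, hu, ?_⟩
  calc (u * x) * Z.ζ = u * (x * Z.ζ * x⁻¹) * x := by
        simp only [mul_assoc]
        rw [inv_mul_cancel₀ hx, mul_one]
    _ = Z.ζ ^ a * u * x := by rw [huc]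
    _ = Z.ζ ^ a * (u * x) := by rw [mul_assoc]

end Pool.Agent.Lib.MP_bb37eb_nt.L2
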