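import Pool.Agent.Lib.MP_bb37eb_nt.L2.Ultra

/-!
# L2, Defs: generators of the residue field and uniformizers
-/

set_option autoImplicit false

open Module

namespace Pool.Agent.Lib.MP_bb37eb_nt.L2

/-- a root of unity `ζ` in `D` which generates the residue field of `D`; the residue classes of
the powers `ζ ^ m j` form a basis of the residue field over the field with two elements -/
structure ZetaData (D : Type) [DivisionRing D] [Algebra ℚ_[2] D] [FiniteDimensional ℚ_[2] D] where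
  f : ℕ
  ζ : D
  m : Fin f → ℕ
  f_pos : 0 < f
  pow_eq : ζ ^ (2 ^ f - 1) = 1
  ord : ∀ i : ℕ, ζ ^ i = 1 → 2 ^ f - 1 ∣ i
  inj : ∀ i j : ℕ, nu ℚ_[2] (ζ ^ i - ζ ^ j) < 1 → ζ ^ i = ζ ^ j
  repr : ∀ x : D, nu ℚ_[2] x ≤ 1 → nu ℚ_[2] x < 1 ∨ ∃ i : ℕ, nu ℚ_[2] (x - ζ ^ i) < 1
  indep : ∀ (a : Fin f → ℚ_[2]) (i : Fin f), ‖a i‖ ≤ nu ℚ_[2] (∑ j, a j • ζ ^ m j)
  span : ∀ x : D, nu ℚ_[2] x ≤ 1 → ∃ a : Fin f → ℚ_[2], nu ℚ_[2] (x - ∑ j, a j • ζ ^ m j) < 1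
  comm : ∀ x y : D, nu ℚ_[2] x ≤ 1 → nu ℚ_[2] y ≤ 1 → nu ℚ_[2] (x * y - y * x) < 1

/-- a uniformizer of `D` -/
structure UnifData (D : Type) [DivisionRing D] [Algebra ℚ_[2] D] [FiniteDimensional ℚ_[2] D] where
  e : ℕ
  π : D
  e_pos : 0 < e
  pow_eq : nu ℚ_[2] π ^ e = 1 / 2
  val : ∀ x : D, x ≠ 0 → ∃ k : ℤ, nu ℚ_[2] x = nu ℚ_[2] π ^ k

variable {D : Type} [DivisionRing D] [Algebra ℚ_[2] D] [FiniteDimensional ℚ_[2] D]

theorem nu_two : nu ℚ_[2] (2 : D) = 1 / 2 := by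
  have h := nu_algebraMap (D := D) ℚ_[2] 2
  rw [map_ofNat] at h
  rw [h]
  have h2 := Padic.norm_p (p := 2)
  rw [Nat.cast_ofNat] at h2
  rw [h2]
  norm_num

theorem nu_natCast (n : ℕ) : nu ℚ_[2] (n : D) ≤ 1 := by
  have h := nu_algebraMap (D := D) ℚ_[2] n
  rw [map_natCast] at h
  rw [h]
  have h1 := Padic.norm_int_le_one (p := 2) (n : ℤ)
  rwa [Int.cast_natCast] at h1

theorem nu_odd {n : ℕ} (hn : Odd n) : nu ℚ_[2] (n : D) = 1 := by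
  have h := nu_algebraMap (D := D) ℚ_[2] n
  rw [map_natCast] at h
  rw [h]
  have h1 : ‖((n : ℤ) : ℚ_[2])‖ = 1 := by
    refine le_antisymm (Padic.norm_int_le_one _) ?_
    rw [← not_lt]
    intro h2
    rw [Padic.norm_intCast_lt_one_iff] at h2
    obtain ⟨k, hk⟩ := hn
    omega
  rw [Int.cast_natCast] at h1
  exact h1

theorem norm_zpow_of_ne_zero {a : ℚ_[2]} (ha : a ≠ 0) : ∃ n : ℤ, ‖a‖ = 2 ^ n := by
  refine ⟨-a.valuation, ?_⟩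
  have h := Padic.norm_eq_zpow_neg_valuation ha
  rwa [Nat.cast_ofNat] at h

/-- congruence of products -/
theorem nu_mul_sub_mul_lt {x x' y y' : D} (hx : nu ℚ_[2] x ≤ 1) (hy' : nu ℚ_[2] y' ≤ 1)
    (h : nu ℚ_[2] (x - x') < 1) (h' : nu ℚ_[2] (y - y') < 1) :
    nu ℚ_[2] (x * y - x' * y') < 1 := by
  have e : x * y - x' * y' = x * (y - y') + (x - x') * y' := by noncomm_ring
  rw [e]
  refine (nu_add_le ℚ_[2] _ _).trans_lt (max_lt ?_ ?_)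
  · rw [nu_mul]
    calc nu ℚ_[2] x * nu ℚ_[2] (y - y') ≤ 1 * nu ℚ_[2] (y - y') :=
          mul_le_mul_of_nonneg_right hx (nu_nonneg ℚ_[2] _)
      _ < 1 := by rw [one_mul]; exact h'
  · rw [nu_mul]
    calc nu ℚ_[2] (x - x') * nu ℚ_[2] y' ≤ nu ℚ_[2] (x - x') * 1 :=
          mul_le_mul_of_nonneg_left hy' (nu_nonneg ℚ_[2] _)
      _ < 1 := by rw [mul_one]; exact h

theorem nu_sub_lt_trans {x y z : D} (h : nu ℚ_[2] (x - y) < 1) (h' : nu ℚ_[2] (y - z) < 1) :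
    nu ℚ_[2] (x - z) < 1 := by
  have e : x - z = (x - y) + (y - z) := by abel
  rw [e]
  exact (nu_add_le ℚ_[2] _ _).trans_lt (max_lt h h')

theorem nu_sub_comm (x y : D) : nu ℚ_[2] (x - y) = nu ℚ_[2] (y - x) := by
  rw [← neg_sub, nu_neg]

theorem nu_eq_one_of_sub_lt {x y : D} (h : nu ℚ_[2] (x - y) < 1) (hy : nu ℚ_[2] y = 1) :
    nu ℚ_[2] x = 1 := by
  have e : x = y + (x - y) := by abel
  rw [e, nu_add_eq_of_lt ℚ_[2] (by rw [hy]; exact h), hy]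

theorem nu_pow_sub_pow_lt {x y : D} (hx : nu ℚ_[2] x ≤ 1) (hy : nu ℚ_[2] y ≤ 1)
    (h : nu ℚ_[2] (x - y) < 1) (n : ℕ) : nu ℚ_[2] (x ^ n - y ^ n) < 1 := by
  induction n with
  | zero => rw [pow_zero, pow_zero, sub_self, nu_zero]; exact one_pos
  | succ n ih =>
    rw [pow_succ, pow_succ]
    refine nu_mul_sub_mul_lt ?_ hy ih h
    rw [nu_pow]
    exact pow_le_one₀ (nu_nonneg ℚ_[2] x) hx

namespace ZetaData

variable (Z : ZetaData D)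

theorem card_pos : 0 < 2 ^ Z.f - 1 := by
  have := Nat.one_lt_two_pow Z.f_pos.ne'
  omega

theorem nu_zeta : nu ℚ_[2] Z.ζ = 1 := by
  have h : nu ℚ_[2] Z.ζ ^ (2 ^ Z.f - 1) = 1 := by rw [← nu_pow, Z.pow_eq, nu_one]
  exact (pow_eq_one_iff_of_nonneg (nu_nonneg ℚ_[2] _) Z.card_pos.ne').1 h

theorem zeta_ne_zero : Z.ζ ≠ 0 := by
  intro h
  have h1 := Z.nu_zeta
  rw [h, nu_zero] at h1
  exact zero_ne_one h1

theorem nu_zeta_pow (n : ℕ) : nu ℚ_[2] (Z.ζ ^ n) = 1 := by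
  rw [nu_pow, Z.nu_zeta, one_pow]

end ZetaData

namespace UnifData

variable (U : UnifData D)

theorem nu_pos' : 0 < nu ℚ_[2] U.π := by
  refine lt_of_le_of_ne (nu_nonneg ℚ_[2] _) fun h => ?_
  have h1 := U.pow_eq
  rw [← h, zero_pow U.e_pos.ne'] at h1
  norm_num at h1

theorem nu_lt_one : nu ℚ_[2] U.π < 1 := by
  by_contra h
  rw [not_lt] at h
  have h1 := one_le_pow₀ h (n := U.e)
  rw [U.pow_eq] at h1
  norm_num at h1

theorem ne_zero : U.π ≠ 0 := by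
  intro h
  have h1 := U.nu_pos'
  rw [h, nu_zero] at h1
  exact lt_irrefl _ h1

theorem nu_le_of_lt_one {x : D} (hx : nu ℚ_[2] x < 1) : nu ℚ_[2] x ≤ nu ℚ_[2] U.π := by
  rcases eq_or_ne x 0 with rfl | h0
  · rw [nu_zero]
    exact U.nu_pos'.le
  · obtain ⟨k, hk⟩ := U.val x h0
    rw [hk] at hx ⊢
    have hk1 : 1 ≤ k := by
      by_contra hc
      rw [not_le] at hc
      have h2 : k ≤ 0 := by omega
      have h3 : 1 ≤ nu ℚ_[2] U.π ^ k := one_le_zpow_of_nonpos₀ U.nu_pos' U.nu_lt_one.le h2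
      linarith
    calc nu ℚ_[2] U.π ^ k ≤ nu ℚ_[2] U.π ^ (1 : ℤ) :=
          zpow_le_zpow_right_of_le_one₀ U.nu_pos' U.nu_lt_one.le hk1
      _ = nu ℚ_[2] U.π := zpow_one _

end UnifData

end Pool.Agent.Lib.MP_bb37eb_nt.L2
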