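import Pool.Agent.Lib.MP_bb37eb_nt.L2.Defs

/-!
# L2, Indep: independence of products
-/

set_option autoImplicit false

open Module

namespace Pool.Agent.Lib.MP_bb37eb_nt.L2

variable {D : Type} [DivisionRing D] [Algebra ℚ_[2] D] [FiniteDimensional ℚ_[2] D]

private theorem indep_sum_lt {ι : Type*} (s : Finset ι) (f : ι → D) {c : ℝ} (hc : 0 < c)
    (h : ∀ i ∈ s, nu ℚ_[2] (f i) < c) : nu ℚ_[2] (∑ i ∈ s, f i) < c := by
  classical
  induction s using Finset.induction_on with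
  | empty => simpa [nu_zero] using hc
  | insert a s ha ih =>
    rw [Finset.sum_insert ha]
    exact (nu_add_le ℚ_[2] _ _).trans_lt (max_lt (h a (Finset.mem_insert_self a s))
      (ih fun i hi => h i (Finset.mem_insert_of_mem hi)))

/-- PROOF. If not all are zero take `i₀` with `nu (t i₀)` maximal; `nu (t i₀) > 0`; all the other terms
have strictly smaller `nu` (smaller or equal by maximality, not equal by `hinj`, or zero), so
`nu (∑_(i ≠ i₀) t i) < nu (t i₀)` and `nu (∑ t i) = nu (t i₀) ≠ 0` by `nu_add_eq_of_lt`. -/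
theorem eq_zero_of_sum_eq_zero {ι : Type*} [Fintype ι] (t : ι → D)
    (hinj : ∀ i j, i ≠ j → t i ≠ 0 → t j ≠ 0 → nu ℚ_[2] (t i) ≠ nu ℚ_[2] (t j))
    (h : ∑ i, t i = 0) (i : ι) : t i = 0 := by
  classical
  by_contra hi
  obtain ⟨i₀, -, hmax⟩ := Finset.exists_max_image Finset.univ (fun i => nu ℚ_[2] (t i))
    ⟨i, Finset.mem_univ i⟩
  have h0 : 0 < nu ℚ_[2] (t i₀) := (nu_pos ℚ_[2] hi).trans_le (hmax i (Finset.mem_univ i))
  have ht0 : t i₀ ≠ 0 := by
    intro h1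
    rw [h1, nu_zero] at h0
    exact lt_irrefl _ h0
  have h2 : nu ℚ_[2] (∑ j ∈ Finset.univ.erase i₀, t j) < nu ℚ_[2] (t i₀) := by
    refine indep_sum_lt _ _ h0 fun j hj => ?_
    have hj' := Finset.ne_of_mem_erase hj
    by_cases htj : t j = 0
    · rw [htj, nu_zero]
      exact h0
    · exact lt_of_le_of_ne (hmax j (Finset.mem_univ j)) (hinj j i₀ hj' htj ht0)
  have h3 : t i₀ + ∑ j ∈ Finset.univ.erase i₀, t j = 0 := by
    rw [Finset.add_sum_erase _ _ (Finset.mem_univ i₀), h]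
  have h4 := nu_add_eq_of_lt ℚ_[2] h2
  rw [h3, nu_zero] at h4
  exact h0.ne h4

private theorem indep_nu (Z : ZetaData D) (a : Fin Z.f → ℚ_[2])
    (h : ∑ i, a i • Z.ζ ^ Z.m i ≠ 0) : ∃ n : ℤ, nu ℚ_[2] (∑ i, a i • Z.ζ ^ Z.m i) = 2 ^ n := by
  obtain ⟨i₁, -, hmax⟩ := Finset.exists_max_image (Finset.univ : Finset (Fin Z.f))
    (fun i => ‖a i‖) ⟨⟨0, Z.f_pos⟩, Finset.mem_univ _⟩
  have h1 : nu ℚ_[2] (∑ i, a i • Z.ζ ^ Z.m i) ≤ ‖a i₁‖ := by
    refine nu_sum_le ℚ_[2] _ _ (norm_nonneg _) fun i hi => ?_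
    rw [nu_smul, Z.nu_zeta_pow, mul_one]
    exact hmax i hi
  have h2 : nu ℚ_[2] (∑ i, a i • Z.ζ ^ Z.m i) = ‖a i₁‖ := le_antisymm h1 (Z.indep a i₁)
  have h3 : a i₁ ≠ 0 := by
    intro h4
    rw [h4, norm_zero] at h2
    exact h ((nu_eq_zero ℚ_[2]).1 h2)
  rw [h2]
  exact norm_zpow_of_ne_zero h3

/-- PROOF. Suppose `∑_j (∑_i a (i,j) • ζ ^ m i) * y j = 0`, `s j = ∑_i a (i,j) • ζ ^ m i`. By `Z.indep`
and the ultrametric inequality `nu (s j) = max_i ‖a (i,j)‖`, so if `s j ≠ 0` then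
`nu (s j) = 2 ^ n = (nu π ^ e) ^ (-n)` for an integer `n` and `nu (s j * y j) = nu π ^ (k j - e * n)`. These
are different for different `j` (`k j < e`, `k` injective, `nu π ^ ·` injective on integers). By
`eq_zero_of_sum_eq_zero` all `s j * y j = 0`, so `s j = 0` (`y j ≠ 0`), so `a = 0` by `Z.indep`. -/
theorem linearIndependent_mul (Z : ZetaData D) (U : UnifData D) {t : ℕ} (y : Fin t → D)
    (k : Fin t → ℕ) (hk : Function.Injective k) (hke : ∀ j, k j < U.e)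
    (hy : ∀ j, nu ℚ_[2] (y j) = nu ℚ_[2] U.π ^ k j) :
    LinearIndependent ℚ_[2] (fun p : Fin Z.f × Fin t => Z.ζ ^ Z.m p.1 * y p.2) := by
  rw [Fintype.linearIndependent_iff]
  intro g hg
  set s : Fin t → D := fun j => ∑ i, g (i, j) • Z.ζ ^ Z.m i with hs
  have hπ := U.nu_pos'
  have hπ1 : nu ℚ_[2] U.π ≠ 1 := U.nu_lt_one.ne
  have h2 : (2 : ℝ) = nu ℚ_[2] U.π ^ (-(U.e : ℤ)) := by
    rw [zpow_neg, zpow_natCast, U.pow_eq, one_div, inv_inv]
  have hy0 : ∀ j, y j ≠ 0 := by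
    intro j h0
    have h1 := hy j
    rw [h0, nu_zero] at h1
    exact (pow_pos hπ (k j)).ne h1
  have hval : ∀ j, s j * y j ≠ 0 → ∃ n : ℤ,
      nu ℚ_[2] (s j * y j) = nu ℚ_[2] U.π ^ ((k j : ℤ) - U.e * n) := by
    intro j hj
    have hsj : s j ≠ 0 := fun h0 => hj (by rw [h0, zero_mul])
    obtain ⟨n, hn⟩ := indep_nu Z (fun i => g (i, j)) hsj
    refine ⟨n, ?_⟩
    have hn' : nu ℚ_[2] (s j) = 2 ^ n := hn
    rw [nu_mul, hn', hy j, h2, ← zpow_mul, ← zpow_natCast, ← zpow_add₀ hπ.ne']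
    congr 1
    ring
  have hsum : ∑ j, s j * y j = 0 := by
    rw [← hg, Fintype.sum_prod_type_right]
    refine Finset.sum_congr rfl fun j _ => ?_
    rw [hs]
    simp only
    rw [Finset.sum_mul]
    refine Finset.sum_congr rfl fun i _ => ?_
    rw [smul_mul_assoc]
  have hzero : ∀ j, s j * y j = 0 := by
    refine eq_zero_of_sum_eq_zero (fun j => s j * y j) ?_ hsum
    intro i j hij hi hj heq
    obtain ⟨n, hn⟩ := hval i hi
    obtain ⟨n', hn'⟩ := hval j hj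
    rw [hn, hn'] at heq
    have h3 := zpow_right_injective₀ hπ hπ1 heq
    have h4 := hke i
    have h5 := hke j
    apply hij
    apply hk
    have h6 : (U.e : ℤ) * (n - n') = (k i : ℤ) - k j := by
      rw [mul_sub]
      linarith
    have h7 : n - n' = 0 := by
      by_contra hne
      have h8 : (U.e : ℤ) ≤ |(k i : ℤ) - k j| := by
        rw [← h6, abs_mul, abs_of_nonneg (Int.natCast_nonneg _)]
        have h9 := Int.one_le_abs hne
        calc (U.e : ℤ) = U.e * 1 := (mul_one _).symm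
          _ ≤ U.e * |n - n'| := mul_le_mul_of_nonneg_left h9 (Int.natCast_nonneg _)
      have h10 : |(k i : ℤ) - k j| < U.e := by
        rw [abs_lt]
        constructor <;> omega
      linarith
    rw [h7, mul_zero] at h6
    omega
  rintro ⟨i, j⟩
  have h3 : s j = 0 := by
    rcases mul_eq_zero.1 (hzero j) with h | h
    · exact h
    · exact absurd h (hy0 j)
  have h4 := Z.indep (fun i => g (i, j)) i
  have h5 : ∑ i, g (i, j) • Z.ζ ^ Z.m i = 0 := h3
  rw [h5, nu_zero] at h4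
  exact norm_le_zero_iff.1 h4

end Pool.Agent.Lib.MP_bb37eb_nt.L2
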