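import Pool.Agent.Lib.MP_bb37eb_nt.L2.Ultra

/-!
# L2, Top: boundedness of linear functionals and completeness for `nu`
-/

set_option autoImplicit false

open Module

namespace Pool.Agent.Lib.MP_bb37eb_nt.L2

universe u v

variable (K : Type u) [NontriviallyNormedField K] [IsUltrametricDist K] [CompleteSpace K]
variable {D : Type v} [DivisionRing D] [Algebra K D] [FiniteDimensional K D]

variable (D) in
/-- `D` as a normed group with norm `nu` -/
@[reducible] noncomputable def nuGroup : NormedAddCommGroup D :=
  letI : Norm D := ⟨nu K⟩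
  NormedAddCommGroup.ofCore (𝕜 := K) (E := D)
    { norm_nonneg := fun x => nu_nonneg K x
      norm_smul := fun c x => nu_smul K c x
      norm_triangle := fun x y => (nu_add_le K x y).trans
        (max_le_add_of_nonneg (nu_nonneg K x) (nu_nonneg K y))
      norm_eq_zero_iff := fun _ => nu_eq_zero K }

variable (D) in
/-- `D` as a normed space -/
@[reducible] noncomputable def nuSpace : @NormedSpace K D _ (nuGroup K D).toSeminormedAddCommGroup :=
  letI := nuGroup K D
  { norm_smul_le := fun c x => (nu_smul K c x).le }

/-- PROOF. Make `D` a normed group with norm `nu K` (`NormedAddCommGroup.ofCore` or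
`SeminormedAddCommGroup` by hand; `nu_zero, nu_neg, nu_add_le, nu_eq_zero, nu_smul`), a normed space
over `K`; linear maps from a finite-dimensional space over a complete field are continuous
(`LinearMap.toContinuousLinearMap`), take `C` = operator norm. -/
theorem exists_bound (φ : D →ₗ[K] K) : ∃ C : ℝ, 0 ≤ C ∧ ∀ x : D, ‖φ x‖ ≤ C * nu K x := by
  let _ := nuGroup K D
  let _ := nuSpace K D
  let ψ : D →L[K] K := LinearMap.toContinuousLinearMap φ
  exact ⟨‖ψ‖, norm_nonneg _, fun x => ψ.le_opNorm x⟩

/-- PROOF. Same normed group; it is complete (`FiniteDimensional.complete K D`); the sequence is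
Cauchy (`cauchySeq_of_le_geometric`); by the ultrametric inequality `nu K (z (m + k) - z m) ≤ r ^ (m+1)`
for all `k`, and closed balls are closed. -/
theorem exists_limit {z : ℕ → D} {r : ℝ} (h0 : 0 ≤ r) (h1 : r < 1)
    (h : ∀ m, nu K (z (m + 1) - z m) ≤ r ^ (m + 1)) :
    ∃ y : D, ∀ m, nu K (y - z m) ≤ r ^ (m + 1) := by
  let _ := nuGroup K D
  let _ := nuSpace K D
  have : CompleteSpace D := FiniteDimensional.complete K D
  have hnorm : ∀ x : D, ‖x‖ = nu K x := fun x => rfl
  have hc : CauchySeq z := by
    refine cauchySeq_of_le_geometric r r h1 fun m => ?_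
    rw [dist_eq_norm, norm_sub_rev, hnorm]
    refine (h m).trans (le_of_eq ?_)
    rw [pow_succ, mul_comm]
  obtain ⟨y, hy⟩ := cauchySeq_tendsto_of_complete hc
  refine ⟨y, fun m => ?_⟩
  have hk : ∀ k, nu K (z (m + k) - z m) ≤ r ^ (m + 1) := by
    intro k
    induction k with
    | zero =>
      rw [add_zero, sub_self, nu_zero]
      exact pow_nonneg h0 _
    | succ k ih =>
      have e : z (m + (k + 1)) - z m = (z (m + k + 1) - z (m + k)) + (z (m + k) - z m) := by
        rw [← add_assoc]
        abel
      rw [e]
      refine (nu_add_le K _ _).trans (max_le ((h (m + k)).trans ?_) ih)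
      exact pow_le_pow_of_le_one h0 h1.le (by omega)
  have hlim : Filter.Tendsto (fun k => ‖z (m + k) - z m‖) Filter.atTop (nhds ‖y - z m‖) := by
    have h2 : Filter.Tendsto (fun k => z (m + k)) Filter.atTop (nhds y) := by
      have := (Filter.tendsto_add_atTop_iff_nat m).2 hy
      simpa only [add_comm] using this
    exact (h2.sub_const _).norm
  rw [← hnorm]
  exact le_of_tendsto hlim (Filter.Eventually.of_forall hk)

end Pool.Agent.Lib.MP_bb37eb_nt.L2
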