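import Pool.Agent.Lib.MP_bb37eb_nt.L2.Defs
import Pool.Agent.Lib.MP_bb37eb_nt.L2.Top

/-!
# L2, Span: the products `ζ ^ m i * π ^ j` span `D`
-/

set_option autoImplicit false

open Module

namespace Pool.Agent.Lib.MP_bb37eb_nt.L2

variable {D : Type} [DivisionRing D] [Algebra ℚ_[2] D] [FiniteDimensional ℚ_[2] D]

private theorem span_step (Z : ZetaData D) (U : UnifData D) (t : ℕ) (ht : t ≤ U.e) :
    ∀ x : D, nu ℚ_[2] x ≤ 1 → ∃ s ∈ Submodule.span ℚ_[2]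
        (Set.range fun p : Fin Z.f × Fin U.e => Z.ζ ^ Z.m p.1 * U.π ^ (p.2 : ℕ)),
      ∃ x' : D, nu ℚ_[2] x' ≤ 1 ∧ x = s + x' * U.π ^ t := by
  induction t with
  | zero =>
    intro x hx
    exact ⟨0, Submodule.zero_mem _, x, hx, by rw [pow_zero, mul_one, zero_add]⟩
  | succ t ih =>
    intro x hx
    obtain ⟨s, hs, x', hx', he⟩ := ih (by omega) x hx
    obtain ⟨a, ha⟩ := Z.span x' hx'
    refine ⟨s + ∑ j, a j • (Z.ζ ^ Z.m j * U.π ^ t), Submodule.add_mem _ hs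
      (Submodule.sum_mem _ fun j _ => Submodule.smul_mem _ _ (Submodule.subset_span
        ⟨(j, ⟨t, by omega⟩), rfl⟩)), (x' - ∑ j, a j • Z.ζ ^ Z.m j) * U.π⁻¹, ?_, ?_⟩
    · rw [nu_mul, nu_inv, ← div_eq_mul_inv, div_le_one U.nu_pos']
      exact U.nu_le_of_lt_one ha
    · have h1 : (x' - ∑ j, a j • Z.ζ ^ Z.m j) * U.π⁻¹ * U.π ^ (t + 1) =
          (x' - ∑ j, a j • Z.ζ ^ Z.m j) * U.π ^ t := by
        rw [pow_succ', mul_assoc, ← mul_assoc U.π⁻¹, inv_mul_cancel₀ U.ne_zero, one_mul]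
      have h2 : ∑ j, a j • (Z.ζ ^ Z.m j * U.π ^ t) = (∑ j, a j • Z.ζ ^ Z.m j) * U.π ^ t := by
        rw [Finset.sum_mul]
        exact Finset.sum_congr rfl fun j _ => (smul_mul_assoc _ _ _).symm
      rw [h1, h2, he, sub_mul]
      abel

private theorem span_two (Z : ZetaData D) (U : UnifData D) (x : D) (hx : nu ℚ_[2] x ≤ 1) :
    ∃ s ∈ Submodule.span ℚ_[2]
        (Set.range fun p : Fin Z.f × Fin U.e => Z.ζ ^ Z.m p.1 * U.π ^ (p.2 : ℕ)),
      ∃ x' : D, nu ℚ_[2] x' ≤ 1 ∧ x = s + (2 : ℚ_[2]) • x' := by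
  obtain ⟨s, hs, x', hx', he⟩ := span_step Z U U.e le_rfl x hx
  have h2 : ‖(2 : ℚ_[2])‖ = 1 / 2 := by
    have h := Padic.norm_p (p := 2)
    rw [Nat.cast_ofNat] at h
    rw [h]
    norm_num
  have h20 : (2 : ℚ_[2]) ≠ 0 := two_ne_zero
  refine ⟨s, hs, (2 : ℚ_[2])⁻¹ • (x' * U.π ^ U.e), ?_, ?_⟩
  · rw [nu_smul, nu_mul, nu_pow, U.pow_eq, norm_inv, h2]
    linarith
  · rw [smul_inv_smul₀ h20]
    exact he

/-- PROOF. By induction on `t ≤ e`: every `x` with `nu x ≤ 1` is `s + x' * π ^ t` with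
`s` in the span and `nu x' ≤ 1` (`Z.span` gives `x' = ∑ a j • ζ ^ m j + x''`, `nu x'' < 1`, so
`nu x'' ≤ nu π` by `U.nu_le_of_lt_one` and `x'' = (x'' * π⁻¹) * π`). For `t = e`, `nu (π ^ e) = 1/2 = nu 2`,
so `x' * π ^ e = (2 : ℚ_[2]) • x''` with `nu x'' ≤ 1`. Suppose the span is not everything; there is a
nonzero functional `φ` which vanishes on it (`Submodule.exists_le_ker_of_lt_top`). By `exists_bound`
`‖φ x‖ ≤ C` for `nu x ≤ 1`, and `φ x = 2 * φ x''`, so `‖φ x‖ ≤ C / 2 ^ m` for all `m`, all `nu x ≤ 1`; so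
`φ x = 0` for `nu x ≤ 1`, and for all `x` (multiply by a power of `2`). -/
theorem span_eq_top (Z : ZetaData D) (U : UnifData D) :
    Submodule.span ℚ_[2] (Set.range fun p : Fin Z.f × Fin U.e => Z.ζ ^ Z.m p.1 * U.π ^ (p.2 : ℕ)) =
      ⊤ := by
  by_contra hne
  obtain ⟨φ, hφ0, hφ⟩ := Submodule.exists_le_ker_of_lt_top _ (lt_top_iff_ne_top.2 hne)
  have h2 : ‖(2 : ℚ_[2])‖ = 1 / 2 := by
    have h := Padic.norm_p (p := 2)
    rw [Nat.cast_ofNat] at h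
    rw [h]
    norm_num
  obtain ⟨C, hC0, hC⟩ := exists_bound ℚ_[2] φ
  have h1 : ∀ m : ℕ, ∀ x : D, nu ℚ_[2] x ≤ 1 → ‖φ x‖ ≤ C * (1 / 2) ^ m := by
    intro m
    induction m with
    | zero =>
      intro x hx
      rw [pow_zero, mul_one]
      exact (hC x).trans (mul_le_of_le_one_right hC0 hx)
    | succ m ih =>
      intro x hx
      obtain ⟨s, hs, x', hx', he⟩ := span_two Z U x hx
      have h3 : φ x = 2 * φ x' := by
        rw [he, map_add, map_smul, LinearMap.mem_ker.1 (hφ hs), zero_add, smul_eq_mul]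
      rw [h3, norm_mul, h2, pow_succ]
      have h4 := ih x' hx'
      nlinarith
  have h3 : ∀ x : D, nu ℚ_[2] x ≤ 1 → φ x = 0 := by
    intro x hx
    have h4 : Filter.Tendsto (fun m : ℕ => C * (1 / 2 : ℝ) ^ m) Filter.atTop (nhds (C * 0)) :=
      (tendsto_pow_atTop_nhds_zero_of_lt_one (by norm_num) (by norm_num)).const_mul C
    have h5 : ‖φ x‖ ≤ C * 0 := ge_of_tendsto' h4 fun m => h1 m x hx
    rw [mul_zero] at h5
    exact norm_le_zero_iff.1 h5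
  apply hφ0
  ext x
  rw [LinearMap.zero_apply]
  have h4 : Filter.Tendsto (fun m : ℕ => (1 / 2 : ℝ) ^ m * nu ℚ_[2] x) Filter.atTop
      (nhds (0 * nu ℚ_[2] x)) :=
    (tendsto_pow_atTop_nhds_zero_of_lt_one (by norm_num) (by norm_num)).mul_const _
  rw [zero_mul] at h4
  obtain ⟨m, hm⟩ := (h4.eventually (gt_mem_nhds one_pos)).exists
  have h5 : φ (((2 : ℚ_[2]) ^ m) • x) = 0 := by
    apply h3
    rw [nu_smul, norm_pow, h2]
    exact hm.le
  rw [map_smul, smul_eq_mul] at h5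
  exact (mul_eq_zero.1 h5).resolve_left (pow_ne_zero m two_ne_zero)

end Pool.Agent.Lib.MP_bb37eb_nt.L2
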