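import Pool.Agent.Lib.MP_bb37eb_nt.L2.Comm2
import Pool.Agent.Lib.MP_bb37eb_nt.L2.Indep
import Pool.Agent.Lib.MP_bb37eb_nt.L2.Span
import Pool.Agent.Lib.MP_bb37eb_nt.L2.Conj

/-!
# L2, Deg: `e = f`, the dimension is `e * f`
-/

set_option autoImplicit false

open Module

namespace Pool.Agent.Lib.MP_bb37eb_nt.L2

variable {D : Type} [DivisionRing D] [Algebra ℚ_[2] D] [FiniteDimensional ℚ_[2] D]
  [Algebra.IsCentral ℚ_[2] D]

omit [Algebra.IsCentral ℚ_[2] D] in
private theorem indep_pi (Z : ZetaData D) (U : UnifData D) :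
    LinearIndependent ℚ_[2] (fun p : Fin Z.f × Fin U.e => Z.ζ ^ Z.m p.1 * U.π ^ (p.2 : ℕ)) :=
  linearIndependent_mul Z U (fun j : Fin U.e => U.π ^ (j : ℕ)) (fun j => (j : ℕ))
    Fin.val_injective (fun j => j.2) (fun j => nu_pow ℚ_[2] _ _)

omit [Algebra.IsCentral ℚ_[2] D] in
/-- PROOF. `linearIndependent_mul` (with `y j = π ^ j`, `k j = j`) and `span_eq_top`. -/
theorem finrank_eq (Z : ZetaData D) (U : UnifData D) : finrank ℚ_[2] D = Z.f * U.e := by
  have h := Module.finrank_eq_card_basis (Basis.mk (indep_pi Z U) (span_eq_top Z U).ge)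
  rw [h, Fintype.card_prod, Fintype.card_fin, Fintype.card_fin]

/-- PROOF. `card_sq_le` with `S = {ζ}`, `v i = ζ ^ m i` (independent by `Z.indep`) gives
`f * f ≤ f * e`; with `S = {π}`, `v j = π ^ j` (independent by `linearIndependent_mul`, restricted to one
first index, or directly by `eq_zero_of_sum_eq_zero`) gives `e * e ≤ f * e`. -/
theorem e_eq_f (Z : ZetaData D) (U : UnifData D) : U.e = Z.f := by
  have hsing : ∀ z : D, ∀ a ∈ ({z} : Set D), ∀ b ∈ ({z} : Set D), a * b = b * a := by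
    intro z a ha b hb
    rw [Set.mem_singleton_iff] at ha hb
    rw [ha, hb]
  have h1 : Z.f * Z.f ≤ Z.f * U.e := by
    have hli := linearIndependent_mul Z U (fun _ : Fin 1 => (1 : D)) (fun _ => 0)
      (fun a b _ => Subsingleton.elim a b) (fun _ => U.e_pos)
      (fun _ => by rw [nu_one, pow_zero])
    have hli2 : LinearIndependent ℚ_[2] (fun i : Fin Z.f => Z.ζ ^ Z.m i) := by
      have h2 := hli.comp (fun i : Fin Z.f => (i, (0 : Fin 1)))
        (fun a b hab => (Prod.ext_iff.1 hab).1)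
      have h3 : (fun p : Fin Z.f × Fin 1 => Z.ζ ^ Z.m p.1 * (1 : D)) ∘
          (fun i : Fin Z.f => (i, (0 : Fin 1))) = fun i : Fin Z.f => Z.ζ ^ Z.m i := by
        funext i
        simp
      rwa [h3] at h2
    have h4 := card_sq_le ({Z.ζ} : Set D) (hsing Z.ζ) (fun i : Fin Z.f => Z.ζ ^ Z.m i)
      (fun i => pow_mem (Algebra.subset_adjoin (Set.mem_singleton _)) _) hli2
    rwa [Fintype.card_fin, finrank_eq Z U] at h4
  have h2 : U.e * U.e ≤ Z.f * U.e := by
    have hli2 : LinearIndependent ℚ_[2] (fun j : Fin U.e => U.π ^ (j : ℕ)) := by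
      have h2 := (indep_pi Z U).comp (fun j : Fin U.e => ((⟨0, Z.f_pos⟩ : Fin Z.f), j))
        (fun a b hab => (Prod.ext_iff.1 hab).2)
      refine LinearIndependent.of_comp (LinearMap.mulLeft ℚ_[2] (Z.ζ ^ Z.m ⟨0, Z.f_pos⟩)) ?_
      have h3 : (LinearMap.mulLeft ℚ_[2] (Z.ζ ^ Z.m ⟨0, Z.f_pos⟩)) ∘
          (fun j : Fin U.e => U.π ^ (j : ℕ)) =
          (fun p : Fin Z.f × Fin U.e => Z.ζ ^ Z.m p.1 * U.π ^ (p.2 : ℕ)) ∘
          (fun j : Fin U.e => ((⟨0, Z.f_pos⟩ : Fin Z.f), j)) := by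
        funext j
        simp
      rwa [h3]
    have h4 := card_sq_le ({U.π} : Set D) (hsing U.π) (fun j : Fin U.e => U.π ^ (j : ℕ))
      (fun i => pow_mem (Algebra.subset_adjoin (Set.mem_singleton _)) _) hli2
    rwa [Fintype.card_fin, finrank_eq Z U] at h4
  have h3 : Z.f ≤ U.e := Nat.le_of_mul_le_mul_left h1 Z.f_pos
  have h4 : U.e ≤ Z.f := Nat.le_of_mul_le_mul_right h2 U.e_pos
  exact le_antisymm h4 h3

/-- PROOF. By `exists_unit_conj` with `a = 1` there is `u`, `nu u = 1`, such that `y = u * π ^ s` commutes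
with `ζ`; `nu y = nu π ^ s`. Apply `card_sq_le` with `S = {ζ, y}` to the family `ζ ^ m i * y ^ j`, `j < t`,
independent by `linearIndependent_mul` with `k j = s * j` (`s * j < e` for `j < t`). -/
theorem sq_le_of_commute (Z : ZetaData D) (U : UnifData D) {s t : ℕ} (hs : 0 < s)
    (ht : s * (t - 1) < U.e) (h : nu ℚ_[2] (U.π ^ s * Z.ζ * (U.π ^ s)⁻¹ - Z.ζ) < 1) :
    (Z.f * t) * (Z.f * t) ≤ Z.f * U.e := by
  obtain ⟨u, hu1, hu2⟩ := exists_unit_conj Z (x := U.π ^ s) (pow_ne_zero s U.ne_zero) (a := 1)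
    (by rwa [pow_one])
  rw [pow_one] at hu2
  set y : D := u * U.π ^ s with hy
  have hny : nu ℚ_[2] y = nu ℚ_[2] U.π ^ s := by
    rw [hy, nu_mul, hu1, one_mul, nu_pow]
  have hcomm : ∀ a ∈ ({Z.ζ, y} : Set D), ∀ b ∈ ({Z.ζ, y} : Set D), a * b = b * a := by
    intro a ha b hb
    rw [Set.mem_insert_iff, Set.mem_singleton_iff] at ha hb
    rcases ha with rfl | rfl <;> rcases hb with rfl | rfl
    · rfl
    · exact hu2.symm
    · exact hu2
    · rfl
  have hli := linearIndependent_mul Z U (fun j : Fin t => y ^ (j : ℕ)) (fun j => s * (j : ℕ))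
    (fun a b hab => Fin.ext (Nat.eq_of_mul_eq_mul_left hs hab))
    (fun j => by
      have h1 : (j : ℕ) ≤ t - 1 := by have := j.2; omega
      exact (Nat.mul_le_mul_left s h1).trans_lt ht)
    (fun j => by rw [nu_pow, hny, ← pow_mul])
  have h4 := card_sq_le ({Z.ζ, y} : Set D) hcomm
    (fun p : Fin Z.f × Fin t => Z.ζ ^ Z.m p.1 * y ^ (p.2 : ℕ))
    (fun p => mul_mem (pow_mem (Algebra.subset_adjoin (Set.mem_insert _ _)) _)
      (pow_mem (Algebra.subset_adjoin (Set.mem_insert_of_mem _ (Set.mem_singleton _))) _)) hli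
  rwa [Fintype.card_prod, Fintype.card_fin, Fintype.card_fin, finrank_eq Z U] at h4

end Pool.Agent.Lib.MP_bb37eb_nt.L2
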