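import Mathlib

/-!
# L2, MinusOne: the quaternion algebra `(-1,-1)` over the 2-adic numbers
-/

set_option autoImplicit false

namespace Pool.Agent.Lib.MP_bb37eb_nt.L2

open Quaternion

theorem MinusOne_mod8 (a b c : ZMod (2 ^ 3)) : 1 + a ^ 2 + b ^ 2 + c ^ 2 ≠ 0 := by
  have h : ∀ a : ZMod (2 ^ 3), a ^ 2 = 0 ∨ a ^ 2 = 1 ∨ a ^ 2 = 4 := by decide
  rcases h a with ha | ha | ha <;> rcases h b with hb | hb | hb <;> rcases h c with hc | hc | hc <;>
    rw [ha, hb, hc] <;> decide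

/-- the element of largest norm is zero -/
theorem MinusOne_key {m x y z : ℚ_[2]} (hx : ‖x‖ ≤ ‖m‖) (hy : ‖y‖ ≤ ‖m‖) (hz : ‖z‖ ≤ ‖m‖)
    (h : m ^ 2 + x ^ 2 + y ^ 2 + z ^ 2 = 0) : m = 0 := by
  by_contra hm
  have hn : 0 < ‖m‖ := norm_pos_iff.2 hm
  have hq : ∀ w : ℚ_[2], ‖w‖ ≤ ‖m‖ → ‖w / m‖ ≤ 1 := by
    intro w hw
    rw [norm_div]
    exact div_le_one_of_le₀ hw hn.le
  let X : ℤ_[2] := ⟨x / m, hq x hx⟩
  let Y : ℤ_[2] := ⟨y / m, hq y hy⟩
  let Z : ℤ_[2] := ⟨z / m, hq z hz⟩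
  have h1 : (1 : ℤ_[2]) + X ^ 2 + Y ^ 2 + Z ^ 2 = 0 := by
    apply Subtype.ext
    have h2 : (((1 : ℤ_[2]) + X ^ 2 + Y ^ 2 + Z ^ 2 : ℤ_[2]) : ℚ_[2]) =
        1 + (x / m) ^ 2 + (y / m) ^ 2 + (z / m) ^ 2 := by
      push_cast
      rfl
    rw [h2]
    have h3 : (1 : ℚ_[2]) + (x / m) ^ 2 + (y / m) ^ 2 + (z / m) ^ 2 =
        (m ^ 2 + x ^ 2 + y ^ 2 + z ^ 2) / m ^ 2 := by
      field_simp
    rw [h3, h, zero_div]
    rfl
  have h4 := congrArg (PadicInt.toZModPow 3) h1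
  rw [map_add, map_add, map_add, map_one, map_pow, map_pow, map_pow, map_zero] at h4
  exact MinusOne_mod8 _ _ _ h4

/-- PROOF. If not all are zero, divide by the one with the largest norm: may assume that all are
in `ℤ_[2]` and one is `1`. Modulo `8` (`PadicInt.toZModPow 3`) this contradicts: for `a b c : ZMod 8`,
`1 + a ^ 2 + b ^ 2 + c ^ 2 ≠ 0` (`decide`). -/
theorem four_squares {a b c d : ℚ_[2]} (h : a ^ 2 + b ^ 2 + c ^ 2 + d ^ 2 = 0) :
    a = 0 ∧ b = 0 ∧ c = 0 ∧ d = 0 := by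
  have hall : ∀ m x y z : ℚ_[2], ‖x‖ ≤ ‖m‖ → ‖y‖ ≤ ‖m‖ → ‖z‖ ≤ ‖m‖ →
      m ^ 2 + x ^ 2 + y ^ 2 + z ^ 2 = 0 → m = 0 ∧ x = 0 ∧ y = 0 ∧ z = 0 := by
    intro m x y z hx hy hz h
    have hm := MinusOne_key hx hy hz h
    rw [hm, norm_zero] at hx hy hz
    exact ⟨hm, norm_le_zero_iff.1 hx, norm_le_zero_iff.1 hy, norm_le_zero_iff.1 hz⟩
  rcases le_total ‖a‖ ‖b‖ with h1 | h1 <;> rcases le_total ‖c‖ ‖d‖ with h2 | h2
  · rcases le_total ‖b‖ ‖d‖ with h3 | h3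
    · obtain ⟨e1, e2, e3, e4⟩ := hall d a b c (h1.trans h3) h3 h2 (by linear_combination h)
      exact ⟨e2, e3, e4, e1⟩
    · obtain ⟨e1, e2, e3, e4⟩ := hall b a c d h1 (h2.trans h3) h3 (by linear_combination h)
      exact ⟨e2, e1, e3, e4⟩
  · rcases le_total ‖b‖ ‖c‖ with h3 | h3
    · obtain ⟨e1, e2, e3, e4⟩ := hall c a b d (h1.trans h3) h3 h2 (by linear_combination h)
      exact ⟨e2, e3, e1, e4⟩
    · obtain ⟨e1, e2, e3, e4⟩ := hall b a c d h1 h3 (h2.trans h3) (by linear_combination h)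
      exact ⟨e2, e1, e3, e4⟩
  · rcases le_total ‖a‖ ‖d‖ with h3 | h3
    · obtain ⟨e1, e2, e3, e4⟩ := hall d a b c h3 (h1.trans h3) h2 (by linear_combination h)
      exact ⟨e2, e3, e4, e1⟩
    · exact hall a b c d h1 (h2.trans h3) h3 h
  · rcases le_total ‖a‖ ‖c‖ with h3 | h3
    · obtain ⟨e1, e2, e3, e4⟩ := hall c a b d h3 (h1.trans h3) h2 (by linear_combination h)
      exact ⟨e2, e3, e1, e4⟩
    · exact hall a b c d h1 h3 (h2.trans h3) h

/-- PROOF. `star x * x = (a^2+b^2+c^2+d^2 : ℚ_[2])` (`QuaternionAlgebra.star_mul_eq_coe`), so `x * y = 0`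
gives `N(x) y = 0`, `N(x) = 0` or `y = 0`. -/
instance isDomain_H : IsDomain ℍ[ℚ_[2],-1,0,-1] := by
  have hN : ∀ x : ℍ[ℚ_[2],-1,0,-1], star x * x =
      ((x.re ^ 2 + x.imI ^ 2 + x.imJ ^ 2 + x.imK ^ 2 : ℚ_[2]) : ℍ[ℚ_[2],-1,0,-1]) := by
    intro x
    obtain ⟨n, hn⟩ : ∃ n : ℚ_[2], n = x.re ^ 2 + x.imI ^ 2 + x.imJ ^ 2 + x.imK ^ 2 := ⟨_, rfl⟩
    rw [← hn]
    ext
    · simp
      linear_combination -hn
    · simp
      ring
    · simp
      ring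
    · simp
      ring
  have : NoZeroDivisors ℍ[ℚ_[2],-1,0,-1] := by
    refine ⟨fun {x y} hxy => ?_⟩
    have h1 : star x * x * y = 0 := by rw [mul_assoc, hxy, mul_zero]
    rw [hN, QuaternionAlgebra.coe_mul_eq_smul] at h1
    rcases smul_eq_zero.1 h1 with h2 | h2
    · left
      obtain ⟨e1, e2, e3, e4⟩ := four_squares h2
      ext
      · exact e1
      · exact e2
      · exact e3
      · exact e4
    · exact Or.inr h2
  exact NoZeroDivisors.to_isDomain _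

/-- PROOF. An element commuting with `i` and `j` has only a real part. -/
instance isCentral_H (K : Type) [Field K] [CharZero K] : Algebra.IsCentral K ℍ[K,-1,0,-1] := by
  refine ⟨fun z hz => ?_⟩
  rw [Subalgebra.mem_center_iff] at hz
  have hi := hz ⟨0, 1, 0, 0⟩
  have hj := hz ⟨0, 0, 1, 0⟩
  have h2 : (2 : K) ≠ 0 := two_ne_zero
  have e1 : z.imJ = 0 := by
    have h := congrArg QuaternionAlgebra.imK hi
    simp at h
    have h3 : (2 : K) * z.imJ = 0 := by linear_combination h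
    exact (mul_eq_zero.1 h3).resolve_left h2
  have e2 : z.imK = 0 := by
    have h := congrArg QuaternionAlgebra.imJ hi
    simp at h
    have h3 : (2 : K) * z.imK = 0 := by linear_combination -h
    exact (mul_eq_zero.1 h3).resolve_left h2
  have e3 : z.imI = 0 := by
    have h := congrArg QuaternionAlgebra.imK hj
    simp at h
    have h3 : (2 : K) * z.imI = 0 := by linear_combination -h
    exact (mul_eq_zero.1 h3).resolve_left h2
  rw [Algebra.mem_bot]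
  refine ⟨z.re, ?_⟩
  ext
  · rfl
  · exact e3.symm
  · exact e1.symm
  · exact e2.symm

end Pool.Agent.Lib.MP_bb37eb_nt.L2
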