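import Mathlib

/-!
# L2, NormEq: 2-adic units are values of `a ^ 2 - a b + b ^ 2`
-/

set_option autoImplicit false

namespace Pool.Agent.Lib.MP_bb37eb_nt.L2

/-- PROOF. Hensel (`hensels_lemma` for `X ^ 2 - u` at `1`): `‖1 - u‖ ≤ 1/8 < ‖2‖ ^ 2 = 1/4`. -/
theorem exists_sq_of_norm_le (u : ℤ_[2]) (h : ‖u - 1‖ ≤ 1 / 8) : ∃ v : ℤ_[2], v ^ 2 = u := by
  have h2 : ‖(2 : ℤ_[2])‖ = 1 / 2 := by
    have := PadicInt.norm_p (p := 2)
    simpa using this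
  have hF : (Polynomial.aeval (1 : ℤ_[2])) (Polynomial.X ^ 2 - Polynomial.C u : Polynomial ℤ_[2])
      = 1 - u := by
    simp
  have hF' : (Polynomial.aeval (1 : ℤ_[2]))
      (Polynomial.derivative (Polynomial.X ^ 2 - Polynomial.C u : Polynomial ℤ_[2])) = 2 := by
    simp
    norm_num
  have hnorm : ‖(Polynomial.aeval (1 : ℤ_[2]))
      (Polynomial.X ^ 2 - Polynomial.C u : Polynomial ℤ_[2])‖ <
      ‖(Polynomial.aeval (1 : ℤ_[2]))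
      (Polynomial.derivative (Polynomial.X ^ 2 - Polynomial.C u : Polynomial ℤ_[2]))‖ ^ 2 := by
    rw [hF, hF', h2, norm_sub_rev]
    refine h.trans_lt ?_
    norm_num
  obtain ⟨z, hz, -⟩ := hensels_lemma hnorm
  refine ⟨z, ?_⟩
  have : z ^ 2 - u = 0 := by simpa using hz
  exact sub_eq_zero.1 this

/-- PROOF. `u` is congruent modulo `8` to one of `1, 3, 5, 7` (`ℤ_[2] → ZMod 8`, `PadicInt.toZModPow 3`),
i.e. to `w = a₀ ^ 2 - a₀ b₀ + b₀ ^ 2` with `(a₀, b₀) = (1,0), (1,-1), (4,-1), (3,1)` (values `1, 3, 21, 7`);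
`u / w` is congruent to `1` modulo `8` (`w` a unit), so a square `v ^ 2`; take `a = v a₀`, `b = v b₀`. -/
theorem exists_norm_form (u : ℚ_[2]) (h : ‖u‖ = 1) :
    ∃ a b : ℚ_[2], a ^ 2 - a * b + b ^ 2 = u := by
  obtain ⟨z, hzu⟩ : ∃ z : ℤ_[2], (z : ℚ_[2]) = u := ⟨⟨u, h.le⟩, rfl⟩
  have hz : ‖z‖ = 1 := by
    rw [PadicInt.norm_def, hzu, h]
  have hzunit : IsUnit z := PadicInt.isUnit_iff.2 hz
  have hc : IsUnit (PadicInt.toZModPow 3 z) := hzunit.map _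
  have key : ∀ c d : ZMod (2 ^ 3), c * d = 1 → c = 1 ∨ c = 3 ∨ c = 5 ∨ c = 7 := by decide
  obtain ⟨d, hd⟩ := isUnit_iff_exists_inv.1 hc
  obtain ⟨a0, b0, h0⟩ : ∃ a0 b0 : ℤ,
      ((a0 ^ 2 - a0 * b0 + b0 ^ 2 : ℤ) : ZMod (2 ^ 3)) = PadicInt.toZModPow 3 z := by
    rcases key _ _ hd with hk | hk | hk | hk
    · exact ⟨1, 0, by rw [hk]; decide⟩
    · exact ⟨1, -1, by rw [hk]; decide⟩
    · exact ⟨4, -1, by rw [hk]; decide⟩
    · exact ⟨3, 1, by rw [hk]; decide⟩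
  set w : ℤ_[2] := ((a0 ^ 2 - a0 * b0 + b0 ^ 2 : ℤ) : ℤ_[2]) with hw
  have hwz : ‖z - w‖ ≤ 1 / 8 := by
    have h1 : z - w ∈ RingHom.ker (PadicInt.toZModPow 3 : ℤ_[2] →+* ZMod (2 ^ 3)) := by
      rw [RingHom.mem_ker, map_sub, hw, map_intCast, h0, sub_self]
    rw [PadicInt.ker_toZModPow] at h1
    have h2 := (PadicInt.norm_le_pow_iff_mem_span_pow (z - w) 3).2 h1
    refine h2.trans ?_
    norm_num
  have hw1 : ‖w‖ = 1 := by
    have h3 : ‖z - w‖ < ‖z‖ := by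
      rw [hz]
      exact hwz.trans_lt (by norm_num)
    have h4 : ‖w‖ ≤ 1 := PadicInt.norm_le_one w
    by_contra hne
    have h5 : ‖w‖ < 1 := lt_of_le_of_ne h4 hne
    have h6 : ‖z‖ ≤ max ‖z - w‖ ‖w‖ := by
      have := PadicInt.nonarchimedean (z - w) w
      rwa [sub_add_cancel] at this
    rw [hz] at h6 h3
    exact absurd h6 (not_le.2 (max_lt h3 h5))
  obtain ⟨q, hq⟩ : ∃ q : ℤ_[2], w * q = 1 :=
    isUnit_iff_exists_inv.1 (PadicInt.isUnit_iff.2 hw1)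
  have hq1 : ‖q‖ = 1 := by
    have := congrArg norm hq
    rwa [norm_mul, hw1, one_mul, norm_one] at this
  obtain ⟨v, hv⟩ := exists_sq_of_norm_le (z * q) (by
    have : z * q - 1 = (z - w) * q := by rw [sub_mul, hq]
    rw [this, norm_mul, hq1, mul_one]
    exact hwz)
  refine ⟨(v : ℚ_[2]) * (a0 : ℚ_[2]), (v : ℚ_[2]) * (b0 : ℚ_[2]), ?_⟩
  have h7 : v ^ 2 * w = z := by
    rw [hv, mul_assoc, mul_comm q w, hq, mul_one]
  have h8 : ((v : ℚ_[2])) ^ 2 * ((w : ℤ_[2]) : ℚ_[2]) = u := by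
    rw [← hzu, ← h7]
    push_cast
    rfl
  have h9 : ((w : ℤ_[2]) : ℚ_[2]) = (a0 : ℚ_[2]) ^ 2 - a0 * b0 + (b0 : ℚ_[2]) ^ 2 := by
    rw [hw]
    push_cast
    ring
  rw [h9] at h8
  rw [← h8]
  ring

end Pool.Agent.Lib.MP_bb37eb_nt.L2
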