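import Pool.Agent.Lib.MP_bb37eb_nt.L2.Op
import Pool.Agent.Lib.MP_bb37eb_nt.L2.NormEq

/-!
# L2, Quat: the division algebra of degree two over the 2-adic numbers
-/

set_option autoImplicit false

open Module

namespace Pool.Agent.Lib.MP_bb37eb_nt.L2

section aux

variable {D : Type} [DivisionRing D] [Algebra ℚ_[2] D] [FiniteDimensional ℚ_[2] D]

/-- for `f = 2` the element `ζ` is a primitive cube root of unity -/
theorem zeta_of_f_eq_two (Z : ZetaData D) (hf : Z.f = 2) :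
    Z.ζ ^ 3 = 1 ∧ Z.ζ ≠ 1 ∧ Z.ζ * Z.ζ = -1 - Z.ζ := by
  have h3 : Z.ζ ^ 3 = 1 := by
    have h := Z.pow_eq
    rw [hf] at h
    simpa using h
  have h1 : Z.ζ ≠ 1 := by
    intro h
    have h' := Z.ord 1 (by rw [pow_one, h])
    rw [hf] at h'
    norm_num at h'
  refine ⟨h3, h1, ?_⟩
  have h2 : (Z.ζ - 1) * (Z.ζ * Z.ζ + Z.ζ + 1) = 0 := by
    have e : (Z.ζ - 1) * (Z.ζ * Z.ζ + Z.ζ + 1) = Z.ζ ^ 3 - 1 := by noncomm_ring
    rw [e, h3, sub_self]
  rcases mul_eq_zero.1 h2 with h | h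
  · exact absurd (sub_eq_zero.1 h) h1
  · rw [eq_sub_iff_add_eq, eq_neg_iff_add_eq_zero]
    exact h

/-- an element of the same size as `π` which conjugates `ζ` to `ζ ^ 2` -/
theorem exists_conj_two [Algebra.IsCentral ℚ_[2] D] (Z : ZetaData D) (U : UnifData D)
    (hf : Z.f = 2) : ∃ p : D, nu ℚ_[2] p = nu ℚ_[2] U.π ∧ p * Z.ζ = Z.ζ ^ 2 * p := by
  obtain ⟨h3, h1, -⟩ := zeta_of_f_eq_two Z hf
  have he : U.e = 2 := by rw [e_eq_f Z U, hf]
  have hπ := U.ne_zero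
  have hnu : nu ℚ_[2] (U.π * Z.ζ * U.π⁻¹) = 1 := by
    rw [nu_mul, nu_mul, Z.nu_zeta, mul_one, nu_inv, mul_inv_cancel₀ U.nu_pos'.ne']
  obtain ⟨a, ha⟩ : ∃ a : ℕ, nu ℚ_[2] (U.π * Z.ζ * U.π⁻¹ - Z.ζ ^ a) < 1 := by
    rcases Z.repr _ hnu.le with h | h
    · rw [hnu] at h
      exact absurd h (lt_irrefl _)
    · exact h
  rw [pow_eq_pow_mod a h3] at ha
  have hlt : a % 3 < 3 := Nat.mod_lt _ (by norm_num)
  have h2 : a % 3 = 2 := by
    by_contra hne
    rcases (show a % 3 = 0 ∨ a % 3 = 1 by omega) with h | h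
    · rw [h, pow_zero] at ha
      have e : Z.ζ - 1 = U.π⁻¹ * (U.π * Z.ζ * U.π⁻¹ - 1) * U.π := by
        rw [mul_sub, sub_mul, mul_assoc U.π, inv_mul_cancel_left₀ hπ, mul_assoc,
          inv_mul_cancel₀ hπ, mul_one, mul_one, inv_mul_cancel₀ hπ]
      have h4 : nu ℚ_[2] (Z.ζ ^ 1 - Z.ζ ^ 0) < 1 := by
        rw [pow_one, pow_zero, e, nu_mul, nu_mul, nu_inv]
        calc (nu ℚ_[2] U.π)⁻¹ * nu ℚ_[2] (U.π * Z.ζ * U.π⁻¹ - 1) * nu ℚ_[2] U.π
            = nu ℚ_[2] (U.π * Z.ζ * U.π⁻¹ - 1) := by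
              rw [mul_comm, mul_inv_cancel_left₀ U.nu_pos'.ne']
          _ < 1 := ha
      have h5 := Z.inj 1 0 h4
      rw [pow_one, pow_zero] at h5
      exact h1 h5
    · rw [h, pow_one] at ha
      have h4 := sq_le_of_commute Z U (s := 1) (t := 2) one_pos (by rw [he]; norm_num)
        (by rw [pow_one]; exact ha)
      rw [hf, he] at h4
      norm_num at h4
  rw [h2] at ha
  obtain ⟨u, hu, hc⟩ := exists_unit_conj Z hπ ha
  exact ⟨u * U.π, by rw [nu_mul, hu, one_mul], hc⟩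

/-- `D` is spanned by the products of powers of `ζ` and `p` -/
theorem span_of_f_eq_two [Algebra.IsCentral ℚ_[2] D] (Z : ZetaData D) (U : UnifData D)
    (hf : Z.f = 2) {p : D} (hp : nu ℚ_[2] p = nu ℚ_[2] U.π) (A : Subalgebra ℚ_[2] D)
    (hζ : Z.ζ ∈ A) (hpA : p ∈ A) (x : D) : x ∈ A := by
  have he : U.e = 2 := by rw [e_eq_f Z U, hf]
  have hli := linearIndependent_mul Z U (t := 2) (fun j => p ^ (j : ℕ)) (fun j => (j : ℕ))
    Fin.val_injective (fun j => by rw [he]; exact j.2) (fun j => by rw [nu_pow, hp])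
  have hcard : Fintype.card (Fin Z.f × Fin 2) = finrank ℚ_[2] D := by
    rw [Fintype.card_prod, Fintype.card_fin, Fintype.card_fin, finrank_eq Z U, he]
  have : Nonempty (Fin Z.f × Fin 2) := ⟨⟨⟨0, Z.f_pos⟩, 0⟩⟩
  have hspan := hli.span_eq_top_of_card_eq_finrank hcard
  have hle : Submodule.span ℚ_[2] (Set.range fun q : Fin Z.f × Fin 2 =>
      Z.ζ ^ Z.m q.1 * p ^ (q.2 : ℕ)) ≤ Subalgebra.toSubmodule A := by
    rw [Submodule.span_le]
    rintro _ ⟨q, rfl⟩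
    exact A.mul_mem (A.pow_mem hζ _) (A.pow_mem hpA _)
  rw [hspan] at hle
  exact hle (Submodule.mem_top)

end aux

open Quaternion in
/-- the quaternion algebra in degree two -/
theorem exists_equiv_of_f_eq_two {D : Type} [DivisionRing D] [Algebra ℚ_[2] D]
    [FiniteDimensional ℚ_[2] D] [Algebra.IsCentral ℚ_[2] D] (Z : ZetaData D) (U : UnifData D)
    (hf : Z.f = 2) : Nonempty (ℍ[ℚ_[2],-1,-1,2] ≃ₐ[ℚ_[2]] D) := by
  obtain ⟨h3, h1, h2⟩ := zeta_of_f_eq_two Z hf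
  obtain ⟨p, hp, hpc⟩ := exists_conj_two Z U hf
  have he : U.e = 2 := by rw [e_eq_f Z U, hf]
  have hdim : finrank ℚ_[2] D = 4 := by rw [finrank_eq Z U, hf, he]
  have hall := span_of_f_eq_two Z U hf hp
  have hζ2 : Z.ζ ^ 2 = -1 - Z.ζ := by rw [pow_two, h2]
  -- the square of `p` is central
  have hp2 : p * p * Z.ζ = Z.ζ * (p * p) := by
    calc p * p * Z.ζ = p * (p * Z.ζ) := mul_assoc _ _ _
      _ = p * Z.ζ ^ 2 * p := by rw [hpc, mul_assoc]
      _ = p * Z.ζ * Z.ζ * p := by rw [pow_two, ← mul_assoc]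
      _ = Z.ζ ^ 2 * p * Z.ζ * p := by rw [hpc]
      _ = Z.ζ ^ 2 * (p * Z.ζ) * p := by rw [mul_assoc (Z.ζ ^ 2)]
      _ = Z.ζ ^ 2 * (Z.ζ ^ 2 * p) * p := by rw [hpc]
      _ = (Z.ζ ^ 3 * Z.ζ) * (p * p) := by noncomm_ring
      _ = Z.ζ * (p * p) := by rw [h3, one_mul]
  obtain ⟨c, hc⟩ : ∃ c : ℚ_[2], algebraMap ℚ_[2] D c = p * p := by
    have hmem : p * p ∈ Subalgebra.center ℚ_[2] D := by
      rw [Subalgebra.mem_center_iff]
      intro x
      have hx := hall (Subalgebra.centralizer ℚ_[2] {p * p}) ?_ ?_ x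
      · exact ((Subalgebra.mem_centralizer_iff ℚ_[2]).1 hx (p * p) rfl).symm
      · rw [Subalgebra.mem_centralizer_iff]
        rintro _ rfl
        exact hp2
      · rw [Subalgebra.mem_centralizer_iff]
        rintro _ rfl
        exact mul_assoc _ _ _
    rw [Algebra.IsCentral.center_eq_bot] at hmem
    exact Algebra.mem_bot.1 hmem
  have hcn : ‖c‖ = 1 / 2 := by
    have h4 := U.pow_eq
    rw [he] at h4
    rw [← nu_algebraMap (D := D) ℚ_[2], hc, nu_mul, hp, ← pow_two]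
    exact h4
  have h2n : ‖(2 : ℚ_[2])‖ = 1 / 2 := by
    have h := Padic.norm_p (p := 2)
    rw [Nat.cast_ofNat] at h
    rw [h]
    norm_num
  set v : ℚ_[2] := c / 2 with hv
  have hvn : ‖v‖ = 1 := by
    rw [hv, norm_div, hcn, h2n, div_self (by norm_num)]
  have hv0 : v ≠ 0 := by
    intro h
    rw [h, norm_zero] at hvn
    exact zero_ne_one hvn
  have hcv : c = 2 * v := by
    rw [hv, mul_div_cancel₀ _ (two_ne_zero)]
  obtain ⟨a, b, hab⟩ := exists_norm_form v⁻¹ (by rw [norm_inv, hvn, inv_one])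
  set α : D := algebraMap ℚ_[2] D a with hα
  set β : D := algebraMap ℚ_[2] D b with hβ
  have hαc : ∀ x : D, x * α = α * x := fun x => (Algebra.commutes a x).symm
  have hβc : ∀ x : D, x * β = β * x := fun x => (Algebra.commutes b x).symm
  set w : D := α + β * Z.ζ with hw
  set w' : D := α + β * Z.ζ ^ 2 with hw'
  have hww : w * w' = algebraMap ℚ_[2] D v⁻¹ := by
    rw [← hab]
    simp only [map_add, map_sub, map_mul, map_pow]
    rw [← hα, ← hβ, hw, hw', hζ2]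
    have e1 : (α + β * Z.ζ) * (α + β * (-1 - Z.ζ)) =
        α * α + α * β * (-1 - Z.ζ) + β * (Z.ζ * α) + β * (Z.ζ * β) * (-1 - Z.ζ) := by
      noncomm_ring
    rw [e1, hαc Z.ζ, hβc Z.ζ]
    have e2 : β * (β * Z.ζ) * (-1 - Z.ζ) = β * β * (-Z.ζ - Z.ζ * Z.ζ) := by noncomm_ring
    rw [e2, h2, ← mul_assoc β α, hαc β]
    noncomm_ring
  have hw'w : w' * w = w * w' := by
    rw [hw, hw', hζ2]
    have e1 : (α + β * (-1 - Z.ζ)) * (α + β * Z.ζ) =
        α * α + α * β * Z.ζ + β * ((-1 - Z.ζ) * α) + β * ((-1 - Z.ζ) * β) * Z.ζ := by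
      noncomm_ring
    have e2 : (α + β * Z.ζ) * (α + β * (-1 - Z.ζ)) =
        α * α + α * β * (-1 - Z.ζ) + β * (Z.ζ * α) + β * (Z.ζ * β) * (-1 - Z.ζ) := by
      noncomm_ring
    rw [e1, e2, hαc (-1 - Z.ζ), hβc (-1 - Z.ζ), hαc Z.ζ, hβc Z.ζ, ← mul_assoc β α,
      ← mul_assoc β α, hαc β]
    noncomm_ring
  have hpw : p * w = w' * p := by
    rw [hw, hw']
    calc p * (α + β * Z.ζ) = p * α + (p * β) * Z.ζ := by noncomm_ring
      _ = α * p + β * (p * Z.ζ) := by rw [hαc p, hβc p, mul_assoc]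
      _ = (α + β * Z.ζ ^ 2) * p := by rw [hpc]; noncomm_ring
  have hwζ : w * Z.ζ ^ 2 = Z.ζ ^ 2 * w := by
    rw [hw]
    calc (α + β * Z.ζ) * Z.ζ ^ 2 = α * Z.ζ ^ 2 + β * Z.ζ ^ 2 * Z.ζ := by noncomm_ring
      _ = Z.ζ ^ 2 * α + Z.ζ ^ 2 * β * Z.ζ := by rw [← hαc (Z.ζ ^ 2), ← hβc (Z.ζ ^ 2)]
      _ = Z.ζ ^ 2 * (α + β * Z.ζ) := by noncomm_ring
  set j : D := w * p with hj
  have hjj : j * j = algebraMap ℚ_[2] D 2 := by
    calc j * j = w * (p * w) * p := by rw [hj]; noncomm_ring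
      _ = (w * w') * (p * p) := by rw [hpw]; noncomm_ring
      _ = algebraMap ℚ_[2] D (v⁻¹ * c) := by rw [hww, ← hc, map_mul]
      _ = algebraMap ℚ_[2] D 2 := by
        congr 1
        rw [hcv, mul_comm 2 v, inv_mul_cancel_left₀ hv0]
  have hjζ : j * Z.ζ = Z.ζ ^ 2 * j := by
    rw [hj, mul_assoc, hpc, ← mul_assoc, hwζ, mul_assoc]
  let B : QuaternionAlgebra.Basis D (-1 : ℚ_[2]) (-1) 2 :=
    { i := Z.ζ
      j := j
      k := Z.ζ * j
      i_mul_i := by rw [h2, neg_smul, neg_smul, one_smul, one_smul, sub_eq_add_neg]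
      j_mul_j := by rw [hjj, Algebra.algebraMap_eq_smul_one]
      i_mul_j := rfl
      j_mul_i := by
        rw [hjζ, hζ2, neg_smul, one_smul, sub_mul, neg_mul, one_mul] }
  have hi : B.liftHom (QuaternionAlgebra.Basis.self ℚ_[2]).i = Z.ζ := by
    simp [B, QuaternionAlgebra.Basis.liftHom, QuaternionAlgebra.Basis.lift]
  have hjr : B.liftHom (QuaternionAlgebra.Basis.self ℚ_[2]).j = j := by
    simp [B, QuaternionAlgebra.Basis.liftHom, QuaternionAlgebra.Basis.lift]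
  have hζA : Z.ζ ∈ B.liftHom.range := ⟨_, hi⟩
  have hjA : j ∈ B.liftHom.range := ⟨_, hjr⟩
  have hpA : p ∈ B.liftHom.range := by
    have e : p = algebraMap ℚ_[2] D v * (w' * j) := by
      calc p = algebraMap ℚ_[2] D (v * v⁻¹) * p := by
            rw [mul_inv_cancel₀ hv0, map_one, one_mul]
        _ = algebraMap ℚ_[2] D v * ((w * w') * p) := by rw [map_mul, hww, mul_assoc]
        _ = algebraMap ℚ_[2] D v * (w' * j) := by rw [← hw'w, hj, mul_assoc w' w p]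
    rw [e]
    refine Subalgebra.mul_mem _ (Subalgebra.algebraMap_mem _ _) (Subalgebra.mul_mem _ ?_ hjA)
    rw [hw']
    exact Subalgebra.add_mem _ (Subalgebra.algebraMap_mem _ _)
      (Subalgebra.mul_mem _ (Subalgebra.algebraMap_mem _ _) (Subalgebra.pow_mem _ hζA _))
  have hsurj : Function.Surjective B.liftHom := fun x => hall B.liftHom.range hζA hpA x
  have hfr : finrank ℚ_[2] ℍ[ℚ_[2],-1,-1,2] = finrank ℚ_[2] D := by
    rw [QuaternionAlgebra.finrank_eq_four, hdim]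
  have hinj : Function.Injective B.liftHom.toLinearMap :=
    (LinearMap.injective_iff_surjective_of_finrank_eq_finrank hfr).2 hsurj
  exact ⟨AlgEquiv.ofBijective B.liftHom ⟨hinj, hsurj⟩⟩

end Pool.Agent.Lib.MP_bb37eb_nt.L2
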