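import Pool.Agent.Lib.MP_bb37eb_nt.L2.Defs

/-!
# L2, Unif: existence of a uniformizer
-/

set_option autoImplicit false

open Module

namespace Pool.Agent.Lib.MP_bb37eb_nt.L2

variable (D : Type) [DivisionRing D] [Algebra ℚ_[2] D] [FiniteDimensional ℚ_[2] D]

/-- the value group as a group of integers -/
private def unifGroup : AddSubgroup ℤ where
  carrier := {n | ∃ x : D, x ≠ 0 ∧ nu ℚ_[2] x ^ finrank ℚ_[2] D = (2 : ℝ) ^ n}
  zero_mem' := ⟨1, one_ne_zero, by rw [nu_one, one_pow, zpow_zero]⟩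
  add_mem' := by
    rintro a b ⟨x, hx, h1⟩ ⟨y, hy, h2⟩
    refine ⟨x * y, mul_ne_zero hx hy, ?_⟩
    rw [nu_mul, mul_pow, h1, h2, zpow_add₀ two_ne_zero]
  neg_mem' := by
    rintro a ⟨x, hx, h1⟩
    refine ⟨x⁻¹, inv_ne_zero hx, ?_⟩
    rw [nu_inv, inv_pow, h1, zpow_neg]

private theorem unif_mem {n : ℤ} : n ∈ unifGroup D ↔
    ∃ x : D, x ≠ 0 ∧ nu ℚ_[2] x ^ finrank ℚ_[2] D = (2 : ℝ) ^ n := Iff.rfl

private theorem unif_exists {x : D} (hx : x ≠ 0) : ∃ n : ℤ, n ∈ unifGroup D ∧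
    nu ℚ_[2] x ^ finrank ℚ_[2] D = (2 : ℝ) ^ n := by
  have h1 : nu ℚ_[2] x ^ finrank ℚ_[2] D = ‖Algebra.norm ℚ_[2] x‖ := nu_pow_finrank ℚ_[2] x
  have h2 : Algebra.norm ℚ_[2] x ≠ 0 := by
    intro h
    rw [h, norm_zero] at h1
    exact (pow_pos (nu_pos ℚ_[2] hx) _).ne' h1
  obtain ⟨n, hn⟩ := norm_zpow_of_ne_zero h2
  exact ⟨n, ⟨x, hx, h1.trans hn⟩, h1.trans hn⟩

/-- PROOF. `N = finrank`. For `x ≠ 0` put `w x = (Algebra.norm ℚ_[2] x).valuation`, so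
`nu x ^ N = ‖norm x‖ = 2 ^ (- w x)` (`nu_pow_finrank`, `Padic.norm_eq_zpow_neg_valuation`) and
`w (x * y) = w x + w y`. `w 2 = N` (`norm (algebraMap 2) = 2 ^ N`). The set `{w x | x ≠ 0}` is a
subgroup of the integers containing `N`, hence it is `g ℤ` with `0 < g` (`Int.subgroup_cyclic` or
`AddSubgroup`), `N = e * g`. Take `π` with `w π = g`: `nu π ^ N = 2 ^ (-g)`, so `(nu π ^ e) ^ g = (1/2) ^ g`
and `nu π ^ e = 1/2` by injectivity of `g`-th powers of nonnegative reals. If `w x = g k` then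
`nu x ^ N = (nu π ^ k) ^ N`, so `nu x = nu π ^ k`. -/
theorem exists_unif : Nonempty (UnifData D) := by
  have hN : finrank ℚ_[2] D ≠ 0 := finrank_pos.ne'
  obtain ⟨g, hg⟩ := Int.subgroup_cyclic (unifGroup D)
  have hmem : ∀ n : ℤ, n ∈ unifGroup D ↔ ∃ k : ℤ, k * g = n := by
    intro n
    rw [hg, AddSubgroup.mem_closure_singleton]
    simp only [smul_eq_mul]
  -- the element `2`
  have h2 : (-(finrank ℚ_[2] D : ℤ)) ∈ unifGroup D := by
    have h20 : (2 : D) ≠ 0 := by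
      intro h
      have h1 := nu_two (D := D)
      rw [h, nu_zero] at h1
      norm_num at h1
    refine ⟨2, h20, ?_⟩
    rw [nu_two, zpow_neg, zpow_natCast, one_div, inv_pow]
  obtain ⟨k, hk⟩ := (hmem _).1 h2
  have hgk : g.natAbs * k.natAbs = finrank ℚ_[2] D := by
    have := congrArg Int.natAbs hk
    rw [Int.natAbs_mul, Int.natAbs_neg, Int.natAbs_natCast] at this
    rw [mul_comm]
    exact this
  have hk0 : 0 < k.natAbs := by
    rcases Nat.eq_zero_or_pos k.natAbs with h | h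
    · rw [h, mul_zero] at hgk
      exact absurd hgk.symm hN
    · exact h
  -- the uniformizer
  have hπ : (-(g.natAbs : ℤ)) ∈ unifGroup D := by
    rw [hmem]
    rcases le_total 0 g with h | h
    · exact ⟨-1, by omega⟩
    · exact ⟨1, by omega⟩
  obtain ⟨π, hπ0, hπ1⟩ := hπ
  refine ⟨⟨k.natAbs, π, hk0, ?_, ?_⟩⟩
  · have h3 : (nu ℚ_[2] π ^ k.natAbs) ^ finrank ℚ_[2] D = (1 / 2 : ℝ) ^ finrank ℚ_[2] D := by
      rw [← pow_mul, mul_comm, pow_mul, hπ1, ← zpow_natCast, ← zpow_mul, one_div, inv_pow,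
        ← zpow_natCast, ← zpow_neg]
      congr 1
      have h4 : ((g.natAbs : ℤ) * (k.natAbs : ℤ)) = (finrank ℚ_[2] D : ℤ) := by exact_mod_cast hgk
      linarith
    exact (pow_left_inj₀ (pow_nonneg (nu_nonneg ℚ_[2] _) _) (by norm_num) hN).1 h3
  · intro x hx
    obtain ⟨n, hn, hxn⟩ := unif_exists D hx
    obtain ⟨l, hl⟩ := (hmem n).1 hn
    have hl' : ∃ l' : ℤ, -(g.natAbs : ℤ) * l' = n := by
      rcases le_total 0 g with h | h
      · refine ⟨-l, ?_⟩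
        have : (g.natAbs : ℤ) = g := by omega
        rw [this, ← hl]
        ring
      · refine ⟨l, ?_⟩
        have : (g.natAbs : ℤ) = -g := by omega
        rw [this, ← hl]
        ring
    obtain ⟨l', hl'⟩ := hl'
    refine ⟨l', ?_⟩
    have h3 : nu ℚ_[2] x ^ finrank ℚ_[2] D = (nu ℚ_[2] π ^ l') ^ finrank ℚ_[2] D := by
      rw [hxn, ← zpow_natCast (nu ℚ_[2] π ^ l'), ← zpow_mul, mul_comm l', zpow_mul, zpow_natCast,
        hπ1, ← zpow_mul, hl']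
    exact (pow_left_inj₀ (nu_nonneg ℚ_[2] _) (zpow_nonneg (nu_nonneg ℚ_[2] _) _) hN).1 h3

end Pool.Agent.Lib.MP_bb37eb_nt.L2
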