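import Pool.Agent.Lib.MP_bb37eb_nt.L2.Top
import Pool.Agent.Lib.MP_bb37eb_nt.L2.Defs

/-!
# L2, Teich: Teichmueller lifts
-/

set_option autoImplicit false

open Module

namespace Pool.Agent.Lib.MP_bb37eb_nt.L2

section

variable {F : Type} [Field F] [Algebra ℚ_[2] F] [FiniteDimensional ℚ_[2] F]

/-- squaring contracts -/
theorem Teich_sq {s t : ℝ} (hs : 1 / 2 ≤ s) (ht : 0 ≤ t) (hts : t ≤ s) {a b : F}
    (hb : nu ℚ_[2] b ≤ 1) (hab : nu ℚ_[2] (a - b) ≤ t) :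
    nu ℚ_[2] (a ^ 2 - b ^ 2) ≤ t * s := by
  have e : a ^ 2 - b ^ 2 = (a - b) * ((a - b) + 2 * b) := by ring
  rw [e, nu_mul]
  have h1 : nu ℚ_[2] ((a - b) + 2 * b) ≤ s := by
    refine (nu_add_le ℚ_[2] _ _).trans (max_le (hab.trans hts) ?_)
    rw [nu_mul, nu_two]
    have := nu_nonneg ℚ_[2] b
    nlinarith
  exact mul_le_mul hab h1 (nu_nonneg ℚ_[2] _) ht

theorem Teich_pow {s t : ℝ} (hs : 1 / 2 ≤ s) (hs1 : s ≤ 1) (ht : 0 ≤ t) (hts : t ≤ s) {a b : F}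
    (hb : nu ℚ_[2] b ≤ 1) (hab : nu ℚ_[2] (a - b) ≤ t) (f : ℕ) :
    nu ℚ_[2] (a ^ (2 ^ (f + 1)) - b ^ (2 ^ (f + 1))) ≤ t * s := by
  induction f with
  | zero => simpa using Teich_sq hs ht hts hb hab
  | succ f ih =>
    have hs0 : 0 ≤ s := by linarith
    have h1 : t * s ≤ t := mul_le_of_le_one_right ht hs1
    have h2 : nu ℚ_[2] (b ^ (2 ^ (f + 1))) ≤ 1 := by
      rw [nu_pow]
      exact pow_le_one₀ (nu_nonneg ℚ_[2] b) hb
    have h3 := Teich_sq hs (mul_nonneg ht hs0) (h1.trans hts) h2 ih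
    have e1 : ∀ c : F, c ^ (2 ^ (f + 1 + 1)) = (c ^ (2 ^ (f + 1))) ^ 2 := by
      intro c
      rw [← pow_mul, ← pow_succ]
    rw [e1, e1]
    refine h3.trans ?_
    exact mul_le_of_le_one_right (mul_nonneg ht hs0) hs1

/-- the commutative case -/
theorem Teich_field {f : ℕ} (hf : 0 < f) {y : F} (hy : nu ℚ_[2] y ≤ 1)
    (h : nu ℚ_[2] (y ^ (2 ^ f) - y) < 1) :
    ∃ w : F, w ^ (2 ^ f) = w ∧ nu ℚ_[2] (w - y) < 1 := by
  obtain ⟨f, rfl⟩ : ∃ f', f = f' + 1 := ⟨f - 1, by omega⟩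
  obtain ⟨s, hs, hs1, hys⟩ : ∃ s : ℝ, 1 / 2 ≤ s ∧ s < 1 ∧
      nu ℚ_[2] (y ^ (2 ^ (f + 1)) - y) ≤ s :=
    ⟨max (nu ℚ_[2] (y ^ (2 ^ (f + 1)) - y)) (1 / 2), le_max_right _ _,
      max_lt h (by norm_num), le_max_left _ _⟩
  have hs0 : 0 < s := by linarith
  let z : ℕ → F := fun m => y ^ ((2 ^ (f + 1)) ^ m)
  have hz0 : z 0 = y := by simp [z]
  have hzs : ∀ m, z (m + 1) = z m ^ (2 ^ (f + 1)) := by
    intro m
    simp only [z]
    rw [pow_succ, pow_mul]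
  have hz1 : ∀ m, nu ℚ_[2] (z m) ≤ 1 := by
    intro m
    simp only [z]
    rw [nu_pow]
    exact pow_le_one₀ (nu_nonneg ℚ_[2] y) hy
  have hsm : ∀ m : ℕ, s ^ (m + 1) ≤ s := by
    intro m
    rw [pow_succ]
    exact mul_le_of_le_one_left hs0.le (pow_le_one₀ hs0.le hs1.le)
  have hstep : ∀ m, nu ℚ_[2] (z (m + 1) - z m) ≤ s ^ (m + 1) := by
    intro m
    induction m with
    | zero => rw [hzs, hz0, zero_add, pow_one]; exact hys
    | succ m ih =>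
      have h1 := Teich_pow hs hs1.le (pow_nonneg hs0.le (m + 1)) (hsm m) (hz1 m) ih f
      rw [← hzs, ← hzs, ← pow_succ] at h1
      exact h1
  obtain ⟨w, hw⟩ := exists_limit ℚ_[2] hs0.le hs1 hstep
  have hw1 : nu ℚ_[2] w ≤ 1 := by
    have e : w = (w - z 0) + z 0 := by ring
    rw [e]
    refine (nu_add_le ℚ_[2] _ _).trans (max_le ((hw 0).trans ?_) (hz1 0))
    exact (hsm 0).trans hs1.le
  refine ⟨w, ?_, ?_⟩
  · have hle : ∀ m : ℕ, nu ℚ_[2] (w ^ (2 ^ (f + 1)) - w) ≤ s ^ (m + 1) := by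
      intro m
      have e : w ^ (2 ^ (f + 1)) - w =
          (w ^ (2 ^ (f + 1)) - z m ^ (2 ^ (f + 1))) + (z (m + 1) - w) := by
        rw [hzs]; ring
      rw [e]
      refine (nu_add_le ℚ_[2] _ _).trans (max_le ?_ ?_)
      · have h1 := Teich_pow hs hs1.le (pow_nonneg hs0.le (m + 1)) (hsm m) (hz1 m) (hw m) f
        exact h1.trans (mul_le_of_le_one_right (pow_nonneg hs0.le _) hs1.le)
      · rw [nu_sub_comm]
        refine (hw (m + 1)).trans ?_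
        rw [pow_succ s (m + 1)]
        exact mul_le_of_le_one_right (pow_nonneg hs0.le _) hs1.le
    have hlim : Filter.Tendsto (fun m : ℕ => s ^ (m + 1)) Filter.atTop (nhds 0) :=
      (tendsto_pow_atTop_nhds_zero_of_lt_one hs0.le hs1).comp (Filter.tendsto_add_atTop_nat 1)
    have h0 : nu ℚ_[2] (w ^ (2 ^ (f + 1)) - w) ≤ 0 := ge_of_tendsto' hlim hle
    have h1 := le_antisymm h0 (nu_nonneg ℚ_[2] _)
    exact sub_eq_zero.1 ((nu_eq_zero ℚ_[2]).1 h1)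
  · rw [← hz0]
    exact ((hw 0).trans (hsm 0)).trans_lt hs1

end

variable {D : Type} [DivisionRing D] [Algebra ℚ_[2] D] [FiniteDimensional ℚ_[2] D]

/-- PROOF. By `exists_field ℚ_[2] x` there is a commutative subfield `j : F →ₐ[ℚ_[2]] D` with `j y = x`;
`nu (j u) = nu u` (apply `nu_map` to `j` and to `AlgHom.id`), so it is enough to work in `F`
(`y ^ (2 ^ f) - y` has `nu < 1`). Put `s = max (nu (y ^ (2^f) - y)) (1/2) < 1`. If `nu a ≤ 1`, `nu b ≤ 1`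
and `nu (a - b) ≤ t ≤ s` then `nu (a ^ 2 - b ^ 2) = nu (a - b) * nu ((a - b) + 2 * b) ≤ t * s`
(`nu 2 = 1/2`), so `nu (a ^ (2^f) - b ^ (2^f)) ≤ t * s` (induction on `f ≥ 1`, use `t * s ≤ t`).
So `z m = y ^ ((2^f)^m)` satisfies `nu (z (m+1) - z m) ≤ s ^ (m+1)`. Let `w` be the limit
(`exists_limit`); `nu (w - z 0) ≤ s < 1`, and `w ^ (2^f) - w = (w ^ (2^f) - z m ^ (2^f)) + (z (m+1) - w)`
has `nu ≤ s ^ (m+1)` for all `m`, so it is zero. Take `ζ = j w`. -/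
theorem exists_teich {f : ℕ} (hf : 0 < f) {x : D} (hx : nu ℚ_[2] x ≤ 1)
    (h : nu ℚ_[2] (x ^ (2 ^ f) - x) < 1) :
    ∃ ζ : D, ζ ^ (2 ^ f) = ζ ∧ nu ℚ_[2] (ζ - x) < 1 := by
  obtain ⟨F, iF, iA, iFD, j, y, hy, -, -⟩ := exists_field ℚ_[2] x
  have hj : ∀ u : F, nu ℚ_[2] (j u) = nu ℚ_[2] u := fun u =>
    (nu_map ℚ_[2] j u).trans (nu_map ℚ_[2] (AlgHom.id ℚ_[2] F) u).symm
  have hy1 : nu ℚ_[2] y ≤ 1 := by rw [← hj, hy]; exact hx
  have hy2 : nu ℚ_[2] (y ^ (2 ^ f) - y) < 1 := by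
    rw [← hj, map_sub, map_pow, hy]; exact h
  obtain ⟨w, hw, hw'⟩ := Teich_field hf hy1 hy2
  refine ⟨j w, ?_, ?_⟩
  · rw [← map_pow, hw]
  · rw [← hy, ← map_sub, hj]; exact hw'

end Pool.Agent.Lib.MP_bb37eb_nt.L2
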