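import Pool.Agent.Lib.MP_bb37eb_nt.L2.Res
import Pool.Agent.Lib.MP_bb37eb_nt.L2.Teich

/-!
# L2, Zeta: the Teichmueller generator
-/

set_option autoImplicit false

open Module

namespace Pool.Agent.Lib.MP_bb37eb_nt.L2

variable (D : Type) [DivisionRing D] [Algebra ℚ_[2] D] [FiniteDimensional ℚ_[2] D]

theorem exists_zeta : Nonempty (ZetaData D) := by
  classical
  obtain ⟨k, _, _, _, r, hsurj, hker⟩ := exists_residue_field D
  let _ : Fintype k := Fintype.ofFinite k
  let _ : Algebra (ZMod 2) k := ZMod.algebra k 2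
  set f := finrank (ZMod 2) k with hf
  have hfpos : 0 < f := finrank_pos
  have hcard : Fintype.card k = 2 ^ f := by
    rw [Module.card_eq_pow_finrank (K := ZMod 2) (V := k), ZMod.card]
  obtain ⟨g, hg⟩ := IsCyclic.exists_generator (α := kˣ)
  have hord : orderOf g = 2 ^ f - 1 := by
    rw [orderOf_eq_card_of_forall_mem_zpowers hg, Nat.card_eq_fintype_card, Fintype.card_units,
      hcard]
  have hpow : ∀ u : kˣ, ∃ i : ℕ, (u : k) = (g : k) ^ i := by
    intro u
    obtain ⟨i, hi⟩ := (mem_powers_iff_mem_zpowers (x := g)).2 (hg u)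
    exact ⟨i, by rw [← hi]; simp⟩
  obtain ⟨z0, hz0⟩ := hsurj (g : k)
  have hz1 : nu ℚ_[2] ((z0 : D) ^ (2 ^ f) - z0) < 1 := by
    have h := (hker (z0 ^ (2 ^ f) - z0)).1 (by
      rw [map_sub, map_pow, hz0, ← hcard, FiniteField.pow_card, sub_self])
    exact h
  obtain ⟨ζ, hζ, hζ1⟩ := exists_teich hfpos (mem_OD D |>.1 z0.2) hz1
  have hζO : ζ ∈ OD D := by
    rw [mem_OD]
    have e : ζ = (ζ - z0) + z0 := by abel
    rw [e]
    exact (nu_add_le ℚ_[2] _ _).trans (max_le hζ1.le z0.2)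
  set Z : OD D := ⟨ζ, hζO⟩ with hZ
  have hrZ : r Z = (g : k) := by
    rw [← hz0, ← sub_eq_zero, ← map_sub, hker]
    exact hζ1
  have hζ0 : ζ ≠ 0 := by
    intro h0
    have h1 : Z = 0 := Subtype.ext h0
    rw [h1, map_zero] at hrZ
    exact g.ne_zero hrZ.symm
  have hpoweq : ζ ^ (2 ^ f - 1) = 1 := by
    have h1 : ζ ^ (2 ^ f - 1) * ζ = 1 * ζ := by
      rw [← pow_succ, one_mul, Nat.sub_add_cancel Nat.one_le_two_pow, hζ]
    exact mul_right_cancel₀ hζ0 h1
  have hrpow : ∀ i : ℕ, r (Z ^ i) = (g : k) ^ i := by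
    intro i
    rw [map_pow, hrZ]
  have hcoe : ∀ i : ℕ, ((Z ^ i : OD D) : D) = ζ ^ i := by
    intro i
    rw [SubmonoidClass.coe_pow]
  have hgpow : ∀ i j : ℕ, (g : k) ^ i = (g : k) ^ j → ζ ^ i = ζ ^ j := by
    intro i j h
    have h1 : g ^ i = g ^ j := by
      apply Units.ext
      simpa using h
    have h2 : i % (2 ^ f - 1) = j % (2 ^ f - 1) := by
      have := pow_inj_mod.1 h1
      rwa [hord] at this
    rw [pow_eq_pow_mod i hpoweq, pow_eq_pow_mod j hpoweq, h2]
  let b : Basis (Fin f) (ZMod 2) k := finBasis (ZMod 2) k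
  have hb : ∀ i, ∃ n : ℕ, b i = (g : k) ^ n := by
    intro i
    have h0 : b i ≠ 0 := b.ne_zero i
    exact hpow (Units.mk0 (b i) h0)
  choose m hm using hb
  have hrb : (fun i => r (Z ^ m i)) = fun i => b i := by
    funext i
    rw [hrpow, hm]
  refine ⟨⟨f, ζ, m, hfpos, hpoweq, ?_, ?_, ?_, ?_, ?_, ?_⟩⟩
  · intro i hi
    rw [← hord]
    apply orderOf_dvd_of_pow_eq_one
    apply Units.ext
    have h1 : Z ^ i = 1 := Subtype.ext (by rw [hcoe, hi]; rfl)
    have h2 := hrpow i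
    rw [h1, map_one] at h2
    simpa using h2.symm
  · intro i j h
    apply hgpow
    rw [← hrpow, ← hrpow, ← sub_eq_zero, ← map_sub, hker]
    change nu ℚ_[2] (((Z ^ i : OD D) : D) - ((Z ^ j : OD D) : D)) < 1
    rw [hcoe, hcoe]
    exact h
  · intro x hx
    set X : OD D := ⟨x, hx⟩ with hX
    rcases eq_or_ne (r X) 0 with h0 | h0
    · exact Or.inl ((hker X).1 h0)
    · right
      obtain ⟨i, hi⟩ := hpow (Units.mk0 (r X) h0)
      rw [Units.val_mk0] at hi
      refine ⟨i, ?_⟩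
      have h1 : r (X - Z ^ i) = 0 := by rw [map_sub, hrpow, hi, sub_self]
      have h2 := (hker _).1 h1
      change nu ℚ_[2] (x - ((Z ^ i : OD D) : D)) < 1 at h2
      rwa [hcoe] at h2
  · intro a i
    have h := norm_le_of_indep r hker (fun j => Z ^ m j) (by rw [hrb]; exact b.linearIndependent) a i
    simpa only [hcoe] using h
  · intro x hx
    set X : OD D := ⟨x, hx⟩ with hX
    refine ⟨fun j => ((b.repr (r X) j).val : ℚ_[2]), ?_⟩
    have h1 : r (X - ∑ j, (((b.repr (r X) j).val : ℕ) : OD D) * Z ^ m j) = 0 := by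
      rw [map_sub, map_sum, sub_eq_zero]
      have h2 := b.sum_repr (r X)
      rw [← h2]
      refine Finset.sum_congr rfl fun j _ => ?_
      have h3 : (((b.repr (r X) j).val : ℕ) : ZMod 2) = b.repr (r X) j := ZMod.natCast_zmod_val _
      rw [h2, map_mul, map_natCast, hrpow, ← hm, Algebra.smul_def,
        ← map_natCast (algebraMap (ZMod 2) k), h3]
    have h2 := (hker _).1 h1
    have h3 : ((X - ∑ j, (((b.repr (r X) j).val : ℕ) : OD D) * Z ^ m j : OD D) : D) =
        x - ∑ j, (((b.repr (r X) j).val : ℕ) : ℚ_[2]) • ζ ^ m j := by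
      rw [AddSubgroupClass.coe_sub, AddSubmonoidClass.coe_finsetSum]
      congr 1
      refine Finset.sum_congr rfl fun j _ => ?_
      rw [Algebra.smul_def, map_natCast, ← hcoe]
      rfl
    rw [h3] at h2
    exact h2
  · intro x y hx hy
    set X : OD D := ⟨x, hx⟩ with hX
    set Y : OD D := ⟨y, hy⟩ with hY
    have h1 : r (X * Y - Y * X) = 0 := by
      rw [map_sub, map_mul, map_mul, mul_comm, sub_self]
    exact (hker _).1 h1

end Pool.Agent.Lib.MP_bb37eb_nt.L2
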