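import Pool.Agent.Lib.MP_bb37eb_nt.BR.Final
import Pool.Agent.Lib.MP_bb37eb_nt.L2.Classes
import Pool.Agent.Lib.MP_bb37eb_nt.L2.Quat
import Pool.Agent.Lib.MP_bb37eb_nt.L2.Zeta
import Pool.Agent.Lib.MP_bb37eb_nt.L2.Unif
import Pool.Agent.Lib.MP_bb37eb_nt.L2.MinusOne

/-!
# L2, Final: the 2-torsion of the Brauer group of the 2-adic numbers
-/

set_option autoImplicit false

open Module MulOpposite

namespace Pool.Agent.Lib.MP_bb37eb_nt.L2

open Quaternion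

/-- a central division algebra over the 2-adic numbers with an anti-automorphism has degree one or
is the quaternion algebra -/
theorem eq_or_equiv (D : Type) [DivisionRing D] [Algebra ℚ_[2] D] [FiniteDimensional ℚ_[2] D]
    [Algebra.IsCentral ℚ_[2] D] (τ : D ≃ₐ[ℚ_[2]] Dᵐᵒᵖ) :
    finrank ℚ_[2] D = 1 ∨ Nonempty (ℍ[ℚ_[2],-1,-1,2] ≃ₐ[ℚ_[2]] D) := by
  obtain ⟨Z⟩ := exists_zeta D
  obtain ⟨U⟩ := exists_unif D
  have h1 := f_le_two Z U τ
  have h2 := Z.f_pos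
  rcases (show Z.f = 1 ∨ Z.f = 2 by omega) with h | h
  · left
    rw [finrank_eq Z U, e_eq_f Z U, h]
  · exact Or.inr (exists_equiv_of_f_eq_two Z U h)

/-- a division algebra with an anti-automorphism is trivial or isomorphic to `(-1,-1)` -/
theorem eq_or_equiv_H (D : Type) [DivisionRing D] [Algebra ℚ_[2] D] [FiniteDimensional ℚ_[2] D]
    [Algebra.IsCentral ℚ_[2] D] (τ : D ≃ₐ[ℚ_[2]] Dᵐᵒᵖ) :
    finrank ℚ_[2] D = 1 ∨ Nonempty (ℍ[ℚ_[2],-1,0,-1] ≃ₐ[ℚ_[2]] D) := by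
  rcases eq_or_equiv D τ with h | he
  · exact Or.inl h
  · right
    obtain ⟨e⟩ := he
    let _ : DivisionRing ℍ[ℚ_[2],-1,0,-1] := divisionRingOfFiniteDimensional ℚ_[2] _
    rcases eq_or_equiv ℍ[ℚ_[2],-1,0,-1] QuaternionAlgebra.starAe with h' | he'
    · rw [QuaternionAlgebra.finrank_eq_four] at h'
      omega
    · obtain ⟨e'⟩ := he'
      exact ⟨e'.symm.trans e⟩

end Pool.Agent.Lib.MP_bb37eb_nt.L2

namespace BB37

open Quaternion Pool.Agent.Lib.MP_bb37eb_nt.L2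

theorem L2_two_torsion (x : H2 ℚ_[2]) (hx : x * x = 1) : x = 1 ∨ IsQuat (-1 : ℚ_[2]) (-1) x := by
  obtain ⟨D, _, _, _, _, c, hc, hD⟩ := exists_division ℚ_[2] x
  have hop : HasClass ℚ_[2] Dᵐᵒᵖ c⁻¹ := hD.mop
  have e1 : cls c = cls c⁻¹ := by
    have e2 : cls c⁻¹ = (cls c)⁻¹ := rfl
    rw [e2, hc]
    exact eq_inv_of_mul_eq_one_left hx
  have hdim : finrank ℚ_[2] D = finrank ℚ_[2] Dᵐᵒᵖ := (MulOpposite.opLinearEquiv ℚ_[2]).finrank_eq
  obtain ⟨τ⟩ := HasClass.iso ℚ_[2] hD hop e1 hdim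
  rcases eq_or_equiv_H D τ with h | he
  · left
    have hbij : Function.Bijective (algebraMap ℚ_[2] D) := bijective_algebraMap_of_linearEquiv
      (LinearEquiv.ofFinrankEq _ _ (by rw [h, finrank_self]))
    have h1 : HasClass ℚ_[2] D 1 :=
      (hasClass_self ℚ_[2]).of_algEquiv ℚ_[2] (AlgEquiv.ofBijective (Algebra.ofId ℚ_[2] D) hbij)
    rw [← hc, HasClass.unique ℚ_[2] hD h1]
    rfl
  · right
    obtain ⟨e⟩ := he
    obtain ⟨c', hc', hH⟩ := hasClass_H (K := ℚ_[2])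
    refine ⟨c', hc', ?_⟩
    rw [← hc]
    exact HasClass.unique ℚ_[2] (hH.of_algEquiv ℚ_[2] e) hD

theorem L2_ne_one (x : H2 ℚ_[2]) (hx : IsQuat (-1 : ℚ_[2]) (-1) x) : x ≠ 1 := by
  obtain ⟨c, hc, rfl⟩ := hx
  intro h1
  obtain ⟨c', hc', hH⟩ := hasClass_H (K := ℚ_[2])
  have hcc : c' = c := Subtype.ext (hc'.trans hc.symm)
  rw [hcc] at hH
  let _ : DivisionRing ℍ[ℚ_[2],-1,0,-1] := divisionRingOfFiniteDimensional ℚ_[2] _
  obtain ⟨n, hn, ⟨e⟩⟩ := (split_iff ℚ_[2] ℍ[ℚ_[2],-1,0,-1] c hH).1 h1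
  have hdim := e.toLinearEquiv.finrank_eq
  rw [QuaternionAlgebra.finrank_eq_four, finrank_matrix, finrank_self, Fintype.card_fin] at hdim
  have hn2 : 2 ≤ n := by
    by_contra hcon
    have : n = 0 ∨ n = 1 := by omega
    rcases this with rfl | rfl <;> omega
  let i0 : Fin n := ⟨0, by omega⟩
  let i1 : Fin n := ⟨1, by omega⟩
  have hne : i1 ≠ i0 := by
    intro h
    have := congrArg Fin.val h
    simp [i0, i1] at this
  have hz : (Matrix.single i0 i1 (1 : ℚ_[2])) * Matrix.single i0 i1 1 = 0 :=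
    Matrix.single_mul_single_of_ne _ _ _ _ hne _
  have hz' : e.symm (Matrix.single i0 i1 (1 : ℚ_[2])) * e.symm (Matrix.single i0 i1 1) = 0 := by
    rw [← map_mul, hz, map_zero]
  have h3 : e.symm (Matrix.single i0 i1 (1 : ℚ_[2])) = 0 := by
    rcases mul_eq_zero.1 hz' with h | h <;> exact h
  have h4 : Matrix.single i0 i1 (1 : ℚ_[2]) = 0 := by
    rw [← e.apply_symm_apply (Matrix.single i0 i1 (1 : ℚ_[2])), h3, map_zero]
  have h5 := congrFun (congrFun h4 i0) i1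
  simp at h5

end BB37
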