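import Mathlib

/-!
# L2, Norm: the absolute value of a finite-dimensional division algebra over a complete field

`K` is a complete nonarchimedean field, `D` a division ring which is a finite-dimensional
`K`-algebra. `nu K x = ‖N_{D/K} x‖^(1/dim D)` (the norm is the determinant of the left
multiplication) is multiplicative and ultrametric.
-/

set_option autoImplicit false

open Module

namespace Pool.Agent.Lib.MP_bb37eb_nt.L2

section field

variable {K : Type*} [NontriviallyNormedField K] [IsUltrametricDist K] [CompleteSpace K]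
variable {F : Type*} [Field F] [Algebra K F] [FiniteDimensional K F]

/-- the norm of an element of a finite extension is the power of its spectral norm -/
theorem norm_norm_eq (y : F) :
    ‖Algebra.norm K y‖ = spectralNorm K F y ^ finrank K F := by
  have hint : IsIntegral K y := IsIntegral.of_finite K y
  have h1 : Algebra.norm K (IntermediateField.AdjoinSimple.gen K y) =
      (-1) ^ (minpoly K y).natDegree * (minpoly K y).coeff 0 := by
    have h := Algebra.PowerBasis.norm_gen_eq_coeff_zero_minpoly (IntermediateField.adjoin.powerBasis hint)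
    rw [IntermediateField.adjoin.powerBasis_gen, IntermediateField.adjoin.powerBasis_dim,
      IntermediateField.minpoly_gen] at h
    exact h
  have h2 : ‖Algebra.norm K y‖ = ‖(minpoly K y).coeff 0‖ ^ finrank (IntermediateField.adjoin K {y}) F := by
    rw [Algebra.norm_eq_norm_adjoin K y, h1, norm_pow, norm_mul, norm_pow, norm_neg, norm_one,
      one_pow, one_mul]
  have h3 : finrank K F = (minpoly K y).natDegree * finrank (IntermediateField.adjoin K {y}) F := by
    rw [← IntermediateField.adjoin.finrank hint, finrank_mul_finrank]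
  have h4 : spectralNorm K F y ^ (minpoly K y).natDegree = ‖(minpoly K y).coeff 0‖ := by
    have hd : (minpoly K y).natDegree ≠ 0 := (minpoly.natDegree_pos hint).ne'
    rw [spectralNorm.spectralNorm_eq_norm_coeff_zero_rpow, ← Real.rpow_natCast, ← Real.rpow_mul (norm_nonneg _),
      one_div, inv_mul_cancel₀ (by exact_mod_cast hd), Real.rpow_one]
  rw [h2, h3, pow_mul, h4]

end field

section div

variable (K : Type*) [NontriviallyNormedField K]
variable {D : Type*} [DivisionRing D] [Algebra K D]

/-- the normalised absolute value of `D` -/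
noncomputable def nu (x : D) : ℝ := ‖Algebra.norm K x‖ ^ ((finrank K D : ℝ)⁻¹)

theorem nu_nonneg (x : D) : 0 ≤ nu K x := Real.rpow_nonneg (norm_nonneg _) _

theorem nu_one : nu K (1 : D) = 1 := by
  rw [nu, map_one, norm_one, Real.one_rpow]

theorem nu_mul (x y : D) : nu K (x * y) = nu K x * nu K y := by
  rw [nu, nu, nu, map_mul, norm_mul, Real.mul_rpow (norm_nonneg _) (norm_nonneg _)]

variable [FiniteDimensional K D]

theorem nu_zero : nu K (0 : D) = 0 := by
  have h : (finrank K D : ℝ)⁻¹ ≠ 0 := by
    have : finrank K D ≠ 0 := finrank_pos.ne'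
    positivity
  rw [nu, Algebra.norm_zero, norm_zero, Real.zero_rpow h]

theorem nu_pow_finrank (x : D) : nu K x ^ finrank K D = ‖Algebra.norm K x‖ := by
  have h : (finrank K D : ℝ) ≠ 0 := by
    have : finrank K D ≠ 0 := finrank_pos.ne'
    positivity
  rw [nu, ← Real.rpow_natCast, ← Real.rpow_mul (norm_nonneg _), inv_mul_cancel₀ h, Real.rpow_one]

theorem nu_pos {x : D} (hx : x ≠ 0) : 0 < nu K x := by
  refine lt_of_le_of_ne (nu_nonneg K x) fun h => ?_
  have h1 : nu K x * nu K x⁻¹ = 1 := by rw [← nu_mul, mul_inv_cancel₀ hx, nu_one]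
  rw [← h, zero_mul] at h1
  exact zero_ne_one h1

theorem nu_eq_zero {x : D} : nu K x = 0 ↔ x = 0 := by
  constructor
  · intro h
    by_contra hx
    exact (nu_pos K hx).ne' h
  · rintro rfl
    exact nu_zero K

theorem nu_inv (x : D) : nu K x⁻¹ = (nu K x)⁻¹ := by
  rcases eq_or_ne x 0 with rfl | hx
  · rw [inv_zero, nu_zero, inv_zero]
  · have h1 : nu K x * nu K x⁻¹ = 1 := by rw [← nu_mul, mul_inv_cancel₀ hx, nu_one]
    exact eq_inv_of_mul_eq_one_right h1

theorem nu_pow (x : D) (m : ℕ) : nu K (x ^ m) = nu K x ^ m := by
  induction m with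
  | zero => rw [pow_zero, pow_zero, nu_one]
  | succ m ih => rw [pow_succ, nu_mul, ih, pow_succ]

theorem nu_neg (x : D) : nu K (-x) = nu K x := by
  have h : nu K (-1 : D) = 1 := by
    have h1 : nu K (-1 : D) ^ 2 = 1 := by
      rw [← nu_pow, neg_one_sq, nu_one]
    nlinarith [nu_nonneg K (-1 : D), h1]
  rw [neg_eq_neg_one_mul, nu_mul, h, one_mul]

/-- the norm of `D` restricted to a commutative subfield -/
theorem norm_map {F : Type*} [Field F] [Algebra K F] [FiniteDimensional K F] (j : F →ₐ[K] D)
    (y : F) : ∃ r : ℕ, finrank K D = finrank K F * r ∧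
      Algebra.norm K (j y) = Algebra.norm K y ^ r := by
  let _ : Module F D := Module.compHom D j.toRingHom
  have hsm : ∀ (a : F) (d : D), a • d = j a * d := fun a d => rfl
  have : IsScalarTower K F D := ⟨fun a b d => by
    rw [hsm, hsm, map_smul, smul_mul_assoc]⟩
  have : FiniteDimensional F D := FiniteDimensional.right K F D
  refine ⟨finrank F D, (finrank_mul_finrank K F D).symm, ?_⟩
  let f : D →ₗ[F] D := LinearMap.lsmul F D y
  have h1 : f.restrictScalars K = LinearMap.mulLeft K (j y) := by
    ext d
    rfl
  have h2 : (f.restrictScalars K).det = Algebra.norm K f.det := LinearMap.det_restrictScalars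
  have h3 : f.det = y ^ finrank F D := by
    have : f = y • LinearMap.id := by
      ext d
      rfl
    rw [this, LinearMap.det_smul, LinearMap.det_id, mul_one]
  rw [← map_pow, ← h3, ← h2, h1]
  rfl

end div

end Pool.Agent.Lib.MP_bb37eb_nt.L2
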