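import Pool.Agent.Lib.MP_bb37eb_nt.L2.Deg

/-!
# L2, Op: an anti-automorphism forces degree at most two
-/

set_option autoImplicit false

open Module MulOpposite

namespace Pool.Agent.Lib.MP_bb37eb_nt.L2

variable {D : Type} [DivisionRing D] [Algebra ℚ_[2] D] [FiniteDimensional ℚ_[2] D]

/-- `nu x` depends only on the minimal polynomial of `x` -/
theorem Op_nu_eq (x : D) : nu ℚ_[2] x = spectralValue (minpoly ℚ_[2] x) := by
  obtain ⟨F, _, _, _, j, y, hy, -, -⟩ := exists_field ℚ_[2] x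
  rw [← hy, nu_map ℚ_[2] j y, minpoly.algHom_eq j j.toRingHom.injective y]
  rfl

omit [FiniteDimensional ℚ_[2] D] in
theorem Op_aeval (τ : D ≃ₐ[ℚ_[2]] Dᵐᵒᵖ) (x : D) (p : Polynomial ℚ_[2]) :
    Polynomial.aeval (unop (τ x)) p = unop (τ (Polynomial.aeval x p)) := by
  induction p using Polynomial.induction_on' with
  | add p q hp hq => rw [map_add, map_add, map_add, unop_add, hp, hq]
  | monomial n a =>
    rw [Polynomial.aeval_monomial, Polynomial.aeval_monomial, map_mul, map_pow, AlgEquiv.commutes,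
      unop_mul, unop_pow, MulOpposite.algebraMap_apply, unop_op, Algebra.commutes]

/-- PROOF. `exists_field` at `x` gives `j : F →ₐ[K] D`, `j y = x`, so `nu x = spectralNorm K F y =
spectralValue (minpoly K y)` and `minpoly K y = minpoly K x` (injective algebra map). So it is enough
that `minpoly K (unop (τ x)) = minpoly K x`: for a polynomial `p`,
`aeval (unop (τ x)) p = unop (τ (aeval x p))` (or `minpoly.algHom_eq` through `Dᵐᵒᵖ`, and `minpoly` of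
`op z` in `Dᵐᵒᵖ` is `minpoly` of `z`). -/
theorem nu_antiauto (τ : D ≃ₐ[ℚ_[2]] Dᵐᵒᵖ) (x : D) : nu ℚ_[2] (unop (τ x)) = nu ℚ_[2] x := by
  have hint : IsIntegral ℚ_[2] x := IsIntegral.of_finite _ x
  have h : minpoly ℚ_[2] x = minpoly ℚ_[2] (unop (τ x)) := by
    refine minpoly.eq_of_irreducible_of_monic (minpoly.irreducible hint) ?_ (minpoly.monic hint)
    rw [Op_aeval, minpoly.aeval, map_zero, unop_zero]
  rw [Op_nu_eq, Op_nu_eq, h]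

theorem Op_conj_sub {w : D} (hw : w ≠ 0) (x y : D) :
    nu ℚ_[2] (w * x * w⁻¹ - w * y * w⁻¹) = nu ℚ_[2] (x - y) := by
  have h : w * x * w⁻¹ - w * y * w⁻¹ = w * (x - y) * w⁻¹ := by
    rw [mul_sub, sub_mul]
  have h1 := nu_pos ℚ_[2] hw
  rw [h, nu_mul, nu_mul, nu_inv]
  field_simp

theorem Op_nu_conj {w : D} (hw : w ≠ 0) (x : D) :
    nu ℚ_[2] (w * x * w⁻¹) = nu ℚ_[2] x := by
  have h1 := nu_pos ℚ_[2] hw
  rw [nu_mul, nu_mul, nu_inv]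
  field_simp

omit [Algebra ℚ_[2] D] [FiniteDimensional ℚ_[2] D] in
theorem Op_conj_pow {w : D} (hw : w ≠ 0) (x : D) (n : ℕ) :
    (w * x * w⁻¹) ^ n = w * x ^ n * w⁻¹ := by
  induction n with
  | zero => rw [pow_zero, pow_zero, mul_one, mul_inv_cancel₀ hw]
  | succ n ih =>
    rw [pow_succ, ih, pow_succ]
    have : w * x ^ n * w⁻¹ * (w * x * w⁻¹) = w * x ^ n * (w⁻¹ * w) * x * w⁻¹ := by
      simp only [mul_assoc]
    rw [this, inv_mul_cancel₀ hw, mul_one]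
    simp only [mul_assoc]

/-- PROOF. Write `t x = unop (τ x)`, `t (x y) = t y * t x`, `nu (t x) = nu x`. Write `x ≡ y` for
`nu (x - y) < 1`. The element `π ζ π⁻¹` has `nu = 1`, so by `Z.repr` `π ζ π⁻¹ ≡ ζ ^ a`; raise to powers:
`π ζ ^ i π⁻¹ ≡ ζ ^ (a i)`. Apply `t`: `(t π)⁻¹ * t ζ * t π ≡ (t ζ) ^ a`, so `t ζ ≡ t π * (t ζ) ^ a * (t π)⁻¹`.
By `Z.repr` `t ζ ≡ ζ ^ s` and `t ζ₁ = ζ` for `ζ₁ = t⁻¹ ζ`, `ζ₁ ≡ ζ ^ r`, so `(t ζ) ^ r ≡ ζ`, `ζ ^ (s r) ≡ ζ`.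
`t π = v * π` with `nu v = 1` and conjugation by `v` is trivial modulo `≡` on elements with `nu ≤ 1`
(`Z.comm`). So `ζ ^ s ≡ π * ζ ^ (s a) * π⁻¹ ≡ ζ ^ (s a a)`. Raise to the power `r`: `ζ ≡ ζ ^ (a a)`.
Finally `π ^ 2 * ζ * (π ^ 2)⁻¹ ≡ π * ζ ^ a * π⁻¹ ≡ ζ ^ (a a) ≡ ζ`. -/
theorem conj_sq (Z : ZetaData D) (U : UnifData D) (τ : D ≃ₐ[ℚ_[2]] Dᵐᵒᵖ) :
    nu ℚ_[2] (U.π ^ 2 * Z.ζ * (U.π ^ 2)⁻¹ - Z.ζ) < 1 := by
  set π : D := U.π with hπdef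
  set ζ : D := Z.ζ with hζdef
  have hπ : π ≠ 0 := U.ne_zero
  have hζ1 : nu ℚ_[2] ζ = 1 := Z.nu_zeta
  have hζn : ∀ n : ℕ, nu ℚ_[2] (ζ ^ n) ≤ 1 := fun n => (Z.nu_zeta_pow n).le
  -- the anti-automorphism
  set t : D → D := fun x => unop (τ x) with ht
  have t_mul : ∀ x y, t (x * y) = t y * t x := by
    intro x y
    simp only [ht, map_mul, unop_mul]
  have t_sub : ∀ x y, t (x - y) = t x - t y := by
    intro x y
    simp only [ht, map_sub, unop_sub]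
  have t_pow : ∀ x (n : ℕ), t (x ^ n) = t x ^ n := by
    intro x n
    simp only [ht, map_pow, unop_pow]
  have t_one : t 1 = 1 := by simp only [ht, map_one, unop_one]
  have t_nu : ∀ x, nu ℚ_[2] (t x) = nu ℚ_[2] x := nu_antiauto τ
  have t_ne : ∀ x, x ≠ 0 → t x ≠ 0 := by
    intro x hx h0
    have h1 := t_nu x
    rw [h0, nu_zero] at h1
    exact hx ((nu_eq_zero ℚ_[2]).1 h1.symm)
  have t_inv : t π⁻¹ = (t π)⁻¹ := by
    have h1 : t π * t π⁻¹ = 1 := by rw [← t_mul, inv_mul_cancel₀ hπ, t_one]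
    exact eq_inv_of_mul_eq_one_right h1
  -- (1) conjugation by the uniformizer
  have hrepr : ∀ x, nu ℚ_[2] x = 1 → ∃ i : ℕ, nu ℚ_[2] (x - ζ ^ i) < 1 := by
    intro x hx
    rcases Z.repr x hx.le with h | h
    · exact absurd h (by rw [hx]; exact lt_irrefl 1)
    · exact h
  obtain ⟨a, ha⟩ := hrepr (π * ζ * π⁻¹) (by rw [Op_nu_conj hπ, hζ1])
  have ha' : ∀ i : ℕ, nu ℚ_[2] (π * ζ ^ i * π⁻¹ - ζ ^ (a * i)) < 1 := by
    intro i
    have h := nu_pow_sub_pow_lt (by rw [Op_nu_conj hπ, hζ1]) (hζn a) ha i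
    rwa [Op_conj_pow hπ, ← pow_mul] at h
  -- (3) apply `t`
  have htπ : t π ≠ 0 := t_ne π hπ
  have h3 : nu ℚ_[2] (t ζ - t π * t ζ ^ a * (t π)⁻¹) < 1 := by
    have h1 : nu ℚ_[2] (t (π * ζ * π⁻¹ - ζ ^ a)) < 1 := by rw [t_nu]; exact ha
    rw [t_sub, t_mul, t_mul, t_inv, t_pow] at h1
    rw [← Op_conj_sub htπ] at h1
    have h2 : t π * ((t π)⁻¹ * (t ζ * t π)) * (t π)⁻¹ = t ζ := by
      rw [mul_inv_cancel_left₀ htπ, mul_inv_cancel_right₀ htπ]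
    rwa [h2] at h1
  -- (4) representatives
  have htζ : nu ℚ_[2] (t ζ) = 1 := by rw [t_nu, hζ1]
  obtain ⟨s, hs⟩ := hrepr (t ζ) htζ
  obtain ⟨ζ₁, hζ₁⟩ : ∃ ζ₁, t ζ₁ = ζ := ⟨τ.symm (op ζ), by simp only [ht, AlgEquiv.apply_symm_apply, unop_op]⟩
  have hζ₁n : nu ℚ_[2] ζ₁ = 1 := by rw [← t_nu, hζ₁, hζ1]
  obtain ⟨r, hr⟩ := hrepr ζ₁ hζ₁n
  have h4 : nu ℚ_[2] (ζ - t ζ ^ r) < 1 := by
    have h1 : nu ℚ_[2] (t (ζ₁ - ζ ^ r)) < 1 := by rw [t_nu]; exact hr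
    rwa [t_sub, t_pow, hζ₁] at h1
  have h5 : nu ℚ_[2] (ζ - ζ ^ (s * r)) < 1 := by
    have h1 := nu_pow_sub_pow_lt htζ.le (hζn s) hs r
    rw [← pow_mul] at h1
    exact nu_sub_lt_trans h4 h1
  -- (5) conjugation by `t π`
  set v : D := t π * π⁻¹ with hv
  have hvn : nu ℚ_[2] v = 1 := by
    have h1 := nu_pos ℚ_[2] hπ
    rw [hv, nu_mul, nu_inv, t_nu, mul_inv_cancel₀ h1.ne']
  have hv0 : v ≠ 0 := by
    intro h0
    rw [h0, nu_zero] at hvn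
    exact zero_ne_one hvn
  have htv : t π = v * π := by rw [hv, inv_mul_cancel_right₀ hπ]
  have hconj : ∀ y, nu ℚ_[2] y ≤ 1 → nu ℚ_[2] (v * y * v⁻¹ - y) < 1 := by
    intro y hy
    have h1 : v * y * v⁻¹ - y = (v * y - y * v) * v⁻¹ := by
      rw [sub_mul, mul_inv_cancel_right₀ hv0]
    rw [h1, nu_mul, nu_inv, hvn, inv_one, mul_one]
    exact Z.comm v y hvn.le hy
  have h6 : nu ℚ_[2] (t π * t ζ ^ a * (t π)⁻¹ - ζ ^ (a * (s * a))) < 1 := by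
    have hy : nu ℚ_[2] (π * t ζ ^ a * π⁻¹) ≤ 1 := by
      rw [Op_nu_conj hπ, nu_pow, htζ, one_pow]
    have e1 : t π * t ζ ^ a * (t π)⁻¹ = v * (π * t ζ ^ a * π⁻¹) * v⁻¹ := by
      rw [htv, mul_inv_rev]
      simp only [mul_assoc]
    have g1 := hconj _ hy
    rw [← e1] at g1
    have g2 : nu ℚ_[2] (π * t ζ ^ a * π⁻¹ - π * ζ ^ (s * a) * π⁻¹) < 1 := by
      rw [Op_conj_sub hπ, pow_mul]
      exact nu_pow_sub_pow_lt htζ.le (hζn s) hs a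
    exact nu_sub_lt_trans g1 (nu_sub_lt_trans g2 (ha' (s * a)))
  have h7 : nu ℚ_[2] (ζ ^ s - ζ ^ (a * (s * a))) < 1 := by
    rw [nu_sub_comm] at hs
    exact nu_sub_lt_trans hs (nu_sub_lt_trans h3 h6)
  -- (6)
  have h8 : nu ℚ_[2] (ζ ^ (s * r) - ζ ^ (a * a)) < 1 := by
    have g1 := nu_pow_sub_pow_lt (hζn s) (hζn _) h7 r
    rw [← pow_mul, ← pow_mul] at g1
    have g2 := nu_pow_sub_pow_lt hζ1.le (hζn _) h5 (a * a)
    rw [← pow_mul] at g2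
    rw [nu_sub_comm] at g2
    have e1 : a * (s * a) * r = s * r * (a * a) := by ring
    rw [e1] at g1
    exact nu_sub_lt_trans g1 g2
  have h9 : nu ℚ_[2] (ζ ^ (a * a) - ζ) < 1 := by
    rw [nu_sub_comm]
    exact nu_sub_lt_trans h5 h8
  -- (7)
  have e2 : π ^ 2 * ζ * (π ^ 2)⁻¹ = π * (π * ζ * π⁻¹) * π⁻¹ := by
    rw [pow_two, mul_inv_rev]
    simp only [mul_assoc]
  rw [e2]
  have g3 : nu ℚ_[2] (π * (π * ζ * π⁻¹) * π⁻¹ - π * ζ ^ a * π⁻¹) < 1 := by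
    rw [Op_conj_sub hπ]
    exact ha
  exact nu_sub_lt_trans g3 (nu_sub_lt_trans (ha' a) h9)

/-- PROOF. `e = f = n` (`e_eq_f`). Let `t = (n + 1) / 2`, so `2 (t - 1) < n`. `sq_le_of_commute` with
`s = 2` gives `(n t)^2 ≤ n^2`, so `t ≤ 1`, `n ≤ 2`. -/
theorem f_le_two [Algebra.IsCentral ℚ_[2] D] (Z : ZetaData D) (U : UnifData D)
    (τ : D ≃ₐ[ℚ_[2]] Dᵐᵒᵖ) : Z.f ≤ 2 := by
  have he := e_eq_f Z U
  have hf := Z.f_pos
  by_contra hcon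
  rw [not_le] at hcon
  have h := sq_le_of_commute Z U (s := 2) (t := (Z.f + 1) / 2) two_pos (by omega)
    (conj_sq Z U τ)
  rw [he] at h
  have h1 : 2 ≤ (Z.f + 1) / 2 := by omega
  have h2 : Z.f * 2 ≤ Z.f * ((Z.f + 1) / 2) := Nat.mul_le_mul_left _ h1
  have h3 := Nat.mul_le_mul h2 h2
  have h4 : 0 < Z.f * Z.f := Nat.mul_pos hf hf
  nlinarith

end Pool.Agent.Lib.MP_bb37eb_nt.L2
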