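import Pool.Agent.Lib.MP_bb37eb_nt.L2.Defs

/-!
# L2, Res: the residue field
-/

set_option autoImplicit false

open Module

namespace Pool.Agent.Lib.MP_bb37eb_nt.L2

section

variable (D : Type) [DivisionRing D] [Algebra ℚ_[2] D] [FiniteDimensional ℚ_[2] D]

/-- the elements of absolute value at most one -/
def OD : Subring D where
  carrier := {x | nu ℚ_[2] x ≤ 1}
  mul_mem' := by
    intro a b ha hb
    change nu ℚ_[2] (a * b) ≤ 1
    rw [nu_mul]
    exact mul_le_one₀ ha (nu_nonneg ℚ_[2] b) hb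
  one_mem' := (nu_one (D := D) ℚ_[2]).le
  add_mem' := by
    intro a b ha hb
    exact (nu_add_le ℚ_[2] a b).trans (max_le ha hb)
  zero_mem' := by
    change nu ℚ_[2] (0 : D) ≤ 1
    rw [nu_zero]
    exact zero_le_one
  neg_mem' := by
    intro a ha
    change nu ℚ_[2] (-a) ≤ 1
    rw [nu_neg]
    exact ha

theorem mem_OD {x : D} : x ∈ OD D ↔ nu ℚ_[2] x ≤ 1 := Iff.rfl

/-- the elements of absolute value less than one -/
def PD : Ideal (OD D) where
  carrier := {x | nu ℚ_[2] (x : D) < 1}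
  add_mem' := by
    intro a b ha hb
    exact (nu_add_le ℚ_[2] (a : D) b).trans_lt (max_lt ha hb)
  zero_mem' := by
    change nu ℚ_[2] (0 : D) < 1
    rw [nu_zero]
    exact zero_lt_one
  smul_mem' := by
    intro c a ha
    change nu ℚ_[2] ((c : D) * (a : D)) < 1
    rw [nu_mul]
    calc nu ℚ_[2] (c : D) * nu ℚ_[2] (a : D) ≤ 1 * nu ℚ_[2] (a : D) :=
          mul_le_mul_of_nonneg_right c.2 (nu_nonneg ℚ_[2] _)
      _ < 1 := by rw [one_mul]; exact ha

theorem mem_PD {x : OD D} : x ∈ PD D ↔ nu ℚ_[2] (x : D) < 1 := Iff.rfl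

instance : (PD D).IsTwoSided where
  mul_mem_of_left := by
    intro a c ha
    change nu ℚ_[2] ((a : D) * (c : D)) < 1
    rw [nu_mul]
    calc nu ℚ_[2] (a : D) * nu ℚ_[2] (c : D) ≤ nu ℚ_[2] (a : D) * 1 :=
          mul_le_mul_of_nonneg_left c.2 (nu_nonneg ℚ_[2] _)
      _ < 1 := by rw [mul_one]; exact ha

theorem nu_sum_lt {ι : Type*} (s : Finset ι) (f : ι → D) {c : ℝ} (hc : 0 < c)
    (h : ∀ i ∈ s, nu ℚ_[2] (f i) < c) : nu ℚ_[2] (∑ i ∈ s, f i) < c := by
  classical
  induction s using Finset.induction_on with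
  | empty => simpa [nu_zero] using hc
  | insert a s ha ih =>
    rw [Finset.sum_insert ha]
    exact (nu_add_le ℚ_[2] _ _).trans_lt (max_lt (h a (Finset.mem_insert_self a s))
      (ih fun i hi => h i (Finset.mem_insert_of_mem hi)))

variable {D}

/-- lifts of independent residues -/
theorem norm_le_of_indep {k : Type} [Ring k] [Algebra (ZMod 2) k] (r : OD D →+* k)
    (hr : ∀ x : OD D, r x = 0 ↔ nu ℚ_[2] (x : D) < 1) {ι : Type*} [Fintype ι] (x : ι → OD D)
    (hx : LinearIndependent (ZMod 2) fun i => r (x i)) (a : ι → ℚ_[2]) (i : ι) :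
    ‖a i‖ ≤ nu ℚ_[2] (∑ j, a j • (x j : D)) := by
  classical
  obtain ⟨i₀, -, hi₀⟩ := Finset.exists_max_image Finset.univ (fun j => ‖a j‖)
    ⟨i, Finset.mem_univ i⟩
  have hmax : ∀ j, ‖a j‖ ≤ ‖a i₀‖ := fun j => hi₀ j (Finset.mem_univ j)
  rcases eq_or_ne (a i₀) 0 with h0 | h0
  · have h1 : ‖a i‖ ≤ 0 := by
      have := hmax i
      rwa [h0, norm_zero] at this
    exact h1.trans (nu_nonneg ℚ_[2] _)
  · have hpos : 0 < ‖a i₀‖ := norm_pos_iff.2 h0
    set b : ι → ℚ_[2] := fun j => (a i₀)⁻¹ * a j with hb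
    have hb1 : ∀ j, ‖b j‖ ≤ 1 := by
      intro j
      rw [hb]
      simp only
      rw [norm_mul, norm_inv, inv_mul_le_iff₀ hpos, mul_one]
      exact hmax j
    have hc : ∀ j, ∃ n : ℕ, n < 2 ∧ ‖b j - n‖ < 1 := by
      intro j
      obtain ⟨n, hn, hn'⟩ := PadicInt.exists_mem_range (p := 2) ⟨b j, hb1 j⟩
      refine ⟨n, hn, ?_⟩
      have h2 : ‖(⟨b j, hb1 j⟩ - (n : ℤ_[2]) : ℤ_[2])‖ < 1 := PadicInt.mem_nonunits.1 hn'
      have h3 : ((⟨b j, hb1 j⟩ - (n : ℤ_[2]) : ℤ_[2]) : ℚ_[2]) = b j - n := by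
        rw [PadicInt.coe_sub, PadicInt.coe_natCast]
      rw [PadicInt.norm_def, h3] at h2
      exact h2
    choose c hc2 hcb using hc
    have hkey : 1 ≤ nu ℚ_[2] (∑ j, b j • (x j : D)) := by
      by_contra hlt
      rw [not_le] at hlt
      have h1 : nu ℚ_[2] (∑ j, ((c j : ℚ_[2]) • (x j : D))) < 1 := by
        have e : ∑ j, ((c j : ℚ_[2]) • (x j : D)) = (∑ j, b j • (x j : D)) -
            ∑ j, (b j - c j) • (x j : D) := by
          rw [← Finset.sum_sub_distrib]
          refine Finset.sum_congr rfl fun j _ => ?_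
          rw [← sub_smul, sub_sub_cancel]
        rw [e]
        refine (nu_sub_le ℚ_[2] _ _).trans_lt (max_lt hlt ?_)
        refine nu_sum_lt D _ _ one_pos fun j _ => ?_
        rw [nu_smul]
        calc ‖b j - c j‖ * nu ℚ_[2] (x j : D) ≤ ‖b j - c j‖ * 1 :=
              mul_le_mul_of_nonneg_left (x j).2 (norm_nonneg _)
          _ < 1 := by rw [mul_one]; exact hcb j
      have h2 : (((∑ j, (c j : OD D) * x j : OD D)) : D) = ∑ j, ((c j : ℚ_[2]) • (x j : D)) := by
        rw [AddSubmonoidClass.coe_finsetSum]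
        refine Finset.sum_congr rfl fun j _ => ?_
        rw [Algebra.smul_def, map_natCast]
        rfl
      have h3 : r (∑ j, (c j : OD D) * x j) = 0 := by
        rw [hr, h2]
        exact h1
      have h4 : ∑ j, (c j : ZMod 2) • r (x j) = 0 := by
        rw [← h3, map_sum]
        refine Finset.sum_congr rfl fun j _ => ?_
        rw [map_mul, map_natCast, Algebra.smul_def, map_natCast]
      have h5 := Fintype.linearIndependent_iff.1 hx (fun j => (c j : ZMod 2)) h4 i₀
      have h6 : (2 : ℕ) ∣ c i₀ := (ZMod.natCast_eq_zero_iff _ _).1 h5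
      have h7 : c i₀ = 0 := by
        have := hc2 i₀
        omega
      have h8 := hcb i₀
      rw [h7, hb] at h8
      simp only [Nat.cast_zero, sub_zero] at h8
      rw [inv_mul_cancel₀ h0, norm_one] at h8
      exact lt_irrefl _ h8
    have e : ∑ j, a j • (x j : D) = a i₀ • ∑ j, b j • (x j : D) := by
      rw [Finset.smul_sum]
      refine Finset.sum_congr rfl fun j _ => ?_
      rw [smul_smul, hb]
      simp only
      rw [mul_inv_cancel_left₀ h0]
    rw [e, nu_smul]
    calc ‖a i‖ ≤ ‖a i₀‖ := hmax i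
      _ = ‖a i₀‖ * 1 := (mul_one _).symm
      _ ≤ _ := mul_le_mul_of_nonneg_left hkey (norm_nonneg _)

theorem linearIndependent_of_indep {k : Type} [Ring k] [Algebra (ZMod 2) k] (r : OD D →+* k)
    (hr : ∀ x : OD D, r x = 0 ↔ nu ℚ_[2] (x : D) < 1) {ι : Type*} [Fintype ι] (x : ι → OD D)
    (hx : LinearIndependent (ZMod 2) fun i => r (x i)) :
    LinearIndependent ℚ_[2] fun i => (x i : D) := by
  rw [Fintype.linearIndependent_iff]
  intro a ha i
  have h := norm_le_of_indep r hr x hx a i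
  rw [ha, nu_zero] at h
  exact norm_le_zero_iff.1 h

variable (D)

/-- the residue field -/
theorem exists_residue_field : ∃ (k : Type) (_ : Field k) (_ : Finite k) (_ : CharP k 2)
    (r : OD D →+* k), Function.Surjective r ∧ ∀ x : OD D, r x = 0 ↔ nu ℚ_[2] (x : D) < 1 := by
  classical
  let r : OD D →+* (OD D ⧸ PD D) := Ideal.Quotient.mk (PD D)
  have hsurj : Function.Surjective r := Ideal.Quotient.mk_surjective
  have hker : ∀ x : OD D, r x = 0 ↔ nu ℚ_[2] (x : D) < 1 := fun x => Ideal.Quotient.eq_zero_iff_mem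
  have hone : (1 : OD D ⧸ PD D) ≠ 0 := by
    rw [← map_one r, Ne, hker]
    change ¬ nu ℚ_[2] (1 : D) < 1
    rw [nu_one]
    exact lt_irrefl _
  have hnt : Nontrivial (OD D ⧸ PD D) := ⟨⟨1, 0, hone⟩⟩
  have htwo : (2 : OD D ⧸ PD D) = 0 := by
    have h := (hker 2).2 (by
      change nu ℚ_[2] (2 : D) < 1
      rw [nu_two]
      norm_num)
    rwa [map_ofNat] at h
  have hchar : CharP (OD D ⧸ PD D) 2 := CharTwo.of_one_ne_zero_of_two_eq_zero hone htwo
  have hdom : NoZeroDivisors (OD D ⧸ PD D) := ⟨by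
    intro a b hab
    obtain ⟨x, rfl⟩ := hsurj a
    obtain ⟨y, rfl⟩ := hsurj b
    rw [← map_mul, hker] at hab
    rw [hker, hker]
    by_contra hcon
    push Not at hcon
    have h1 : nu ℚ_[2] ((x : D) * (y : D)) < 1 := hab
    rw [nu_mul] at h1
    have h2 := one_le_mul_of_one_le_of_one_le hcon.1 hcon.2
    linarith⟩
  have hdomain : IsDomain (OD D ⧸ PD D) := NoZeroDivisors.to_isDomain _
  let _ : Algebra (ZMod 2) (OD D ⧸ PD D) := ZMod.algebra _ 2
  have hrank : Module.rank (ZMod 2) (OD D ⧸ PD D) ≤ (finrank ℚ_[2] D : ℕ) := by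
    refine rank_le fun s hs => ?_
    choose x hx using fun y : s => hsurj (y : OD D ⧸ PD D)
    have h1 : LinearIndependent (ZMod 2) fun i : s => r (x i) := by
      have : (fun i : s => r (x i)) = fun i : s => (i : OD D ⧸ PD D) := funext hx
      rw [this]
      exact hs
    have h2 := linearIndependent_of_indep r hker x h1
    have h3 := h2.fintype_card_le_finrank
    rwa [Fintype.card_coe] at h3
  have hfin : Module.Finite (ZMod 2) (OD D ⧸ PD D) :=
    Module.rank_lt_aleph0_iff.1 (hrank.trans_lt Cardinal.natCast_lt_aleph0)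
  have hfinite : Finite (OD D ⧸ PD D) := Module.finite_of_finite (ZMod 2)
  have hfield := Finite.isDomain_to_isField (OD D ⧸ PD D)
  let F : Field (OD D ⧸ PD D) := hfield.toField
  exact ⟨OD D ⧸ PD D, F, hfinite, hchar, r, hsurj, hker⟩

end

end Pool.Agent.Lib.MP_bb37eb_nt.L2
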