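import Mathlib
import Pool.Agent.Lib.MP_bb37eb_nt.L2.Norm

/-!
# L2, Ultra: `nu` is ultrametric
-/

set_option autoImplicit false

open Module Polynomial

namespace Pool.Agent.Lib.MP_bb37eb_nt.L2

universe u v

/-- every element of `D` is in a commutative subfield -/
theorem exists_field (K : Type u) [Field K] {D : Type v} [DivisionRing D] [Algebra K D]
    [FiniteDimensional K D] (x : D) :
    ∃ (F : Type u) (_ : Field F) (_ : Algebra K F) (_ : FiniteDimensional K F)
      (j : F →ₐ[K] D) (y : F), j y = x ∧ Algebra.adjoin K {y} = ⊤ ∧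
      finrank K F = (minpoly K x).natDegree := by
  have hint : IsIntegral K x := IsIntegral.of_finite K x
  have hirr : Irreducible (minpoly K x) := minpoly.irreducible hint
  have : Fact (Irreducible (minpoly K x)) := ⟨hirr⟩
  have hne : minpoly K x ≠ 0 := hirr.ne_zero
  have hfin : FiniteDimensional K (AdjoinRoot (minpoly K x)) := (AdjoinRoot.powerBasis hne).finite
  have hker : ∀ a : K[X], a ∈ Ideal.span {minpoly K x} → (aeval x : K[X] →ₐ[K] D) a = 0 := by
    intro a ha
    rw [Ideal.mem_span_singleton] at ha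
    obtain ⟨b, rfl⟩ := ha
    rw [map_mul, minpoly.aeval, zero_mul]
  let j : AdjoinRoot (minpoly K x) →ₐ[K] D :=
    Ideal.Quotient.liftₐ (Ideal.span {minpoly K x}) (aeval x) hker
  refine ⟨AdjoinRoot (minpoly K x), inferInstance, inferInstance, hfin, j,
    AdjoinRoot.root (minpoly K x), ?_, ?_, ?_⟩
  · have : j (AdjoinRoot.root (minpoly K x)) = aeval x (X : K[X]) :=
      Ideal.Quotient.lift_mk (Ideal.span {minpoly K x}) _ _
    rw [this, aeval_X]
  · exact AdjoinRoot.adjoinRoot_eq_top
  · rw [(AdjoinRoot.powerBasis hne).finrank, AdjoinRoot.powerBasis_dim]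

section

variable (K : Type u) [NontriviallyNormedField K] [IsUltrametricDist K] [CompleteSpace K]
variable {D : Type v} [DivisionRing D] [Algebra K D] [FiniteDimensional K D]

/-- on a commutative subfield `nu` is the spectral norm -/
theorem nu_map {F : Type*} [Field F] [Algebra K F] [FiniteDimensional K F] (j : F →ₐ[K] D)
    (y : F) : nu K (j y) = spectralNorm K F y := by
  obtain ⟨r, hr, hn⟩ := norm_map K j y
  have h1 : nu K (j y) ^ finrank K D = spectralNorm K F y ^ finrank K D := by
    rw [nu_pow_finrank, hn, norm_pow, norm_norm_eq, ← pow_mul, ← hr]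
  exact (pow_left_inj₀ (nu_nonneg K _) (spectralNorm_nonneg y) finrank_pos.ne').1 h1

theorem nu_algebraMap (a : K) : nu K (algebraMap K D a) = ‖a‖ := by
  have h := nu_map K (Algebra.ofId K D) a
  rw [Algebra.ofId_apply] at h
  rw [h]
  exact spectralNorm_extends a

theorem nu_one_add_le (x : D) : nu K (1 + x) ≤ max 1 (nu K x) := by
  obtain ⟨F, _, _, _, j, y, hy, -, -⟩ := exists_field K x
  have h1 : nu K (1 + x) = spectralNorm K F (1 + y) := by
    rw [← nu_map K j, map_add, map_one, hy]
  have h2 : nu K x = spectralNorm K F y := by rw [← nu_map K j, hy]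
  have h3 : spectralNorm K F (1 : F) = 1 := spectralNorm_one
  rw [h1, h2, ← h3]
  exact isNonarchimedean_spectralNorm 1 y

/-- `nu` is ultrametric -/
theorem nu_add_le (x y : D) : nu K (x + y) ≤ max (nu K x) (nu K y) := by
  rcases eq_or_ne x 0 with rfl | hx
  · rw [zero_add, nu_zero]
    exact le_max_right _ _
  · have h : x + y = x * (1 + x⁻¹ * y) := by
      rw [mul_add, mul_one, mul_inv_cancel_left₀ hx]
    rw [h, nu_mul]
    calc nu K x * nu K (1 + x⁻¹ * y) ≤ nu K x * max 1 (nu K (x⁻¹ * y)) :=
          mul_le_mul_of_nonneg_left (nu_one_add_le K _) (nu_nonneg K x)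
      _ = max (nu K x) (nu K y) := by
          rw [mul_max_of_nonneg _ _ (nu_nonneg K x), mul_one, ← nu_mul, mul_inv_cancel_left₀ hx]

theorem nu_sub_le (x y : D) : nu K (x - y) ≤ max (nu K x) (nu K y) := by
  rw [sub_eq_add_neg, ← nu_neg K y]
  exact nu_add_le K x (-y)

theorem nu_sum_le {ι : Type*} (s : Finset ι) (f : ι → D) {c : ℝ} (hc : 0 ≤ c)
    (h : ∀ i ∈ s, nu K (f i) ≤ c) : nu K (∑ i ∈ s, f i) ≤ c := by
  classical
  induction s using Finset.induction_on with
  | empty => simpa [nu_zero] using hc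
  | insert a s ha ih =>
    rw [Finset.sum_insert ha]
    exact (nu_add_le K _ _).trans (max_le (h a (Finset.mem_insert_self a s))
      (ih fun i hi => h i (Finset.mem_insert_of_mem hi)))

theorem nu_smul (a : K) (x : D) : nu K (a • x) = ‖a‖ * nu K x := by
  rw [Algebra.smul_def, nu_mul, nu_algebraMap]

/-- strict domination -/
theorem nu_add_eq_of_lt {x y : D} (h : nu K y < nu K x) : nu K (x + y) = nu K x := by
  refine le_antisymm ((nu_add_le K x y).trans (max_le le_rfl h.le)) ?_
  by_contra hc
  rw [not_le] at hc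
  have h1 : nu K x ≤ max (nu K (x + y)) (nu K y) := by
    have h2 := nu_sub_le K (x + y) y
    rwa [add_sub_cancel_right] at h2
  exact absurd h1 (not_le.2 (max_lt hc h))

end

end Pool.Agent.Lib.MP_bb37eb_nt.L2
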